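/-
The integral Heisenberg group `Hs n` of rank `2 n`, the homomorphism `hs : Fr n → Hs n`, and its
universal property.
-/
import Pool.Agent.H.MP_59b15d_al.sp.Base
import Pool.Agent.H.MP_59b15d_al.h76r.Rh

set_option autoImplicit false

namespace Pool.Agent.H.MP_59b15d_al.H93C

open Pool.Agent.H.MP_59b15d_al.SP
open Pool.MP_59b15d_al.H24T Pool.MP_59b15d_al.H76R
open FreeGroup (of)

variable {n : ℕ}

/-- The cocycle. -/
def co (v w : V n) : ℤ := ∑ i, (v i).2 * (w i).1

lemma co_add_left (u v w : V n) : co (u + v) w = co u w + co v w := by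
  simp only [co, ← Finset.sum_add_distrib, Pi.add_apply, Prod.snd_add]
  exact Finset.sum_congr rfl fun i _ => by ring

lemma co_add_right (u v w : V n) : co u (v + w) = co u v + co u w := by
  simp only [co, ← Finset.sum_add_distrib, Pi.add_apply, Prod.fst_add]
  exact Finset.sum_congr rfl fun i _ => by ring

lemma co_zero_left (w : V n) : co 0 w = 0 := by simp [co]

lemma co_zero_right (w : V n) : co w 0 = 0 := by simp [co]

lemma co_neg_left (v w : V n) : co (-v) w = -co v w := by
  have h := co_add_left (-v) v w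
  rw [neg_add_cancel, co_zero_left] at h
  omega

lemma co_neg_right (v w : V n) : co v (-w) = -co v w := by
  have h := co_add_right v (-w) w
  rw [neg_add_cancel, co_zero_right] at h
  omega

lemma om_eq_co (v w : V n) : om v w = co w v - co v w := by
  rw [om, co, co, ← Finset.sum_sub_distrib]
  exact Finset.sum_congr rfl fun i _ => by ring

/-- The Heisenberg group. -/
@[ext]
structure Hs (n : ℕ) where
  v : V n
  s : ℤ

namespace Hs

instance : Mul (Hs n) := ⟨fun a b => ⟨a.v + b.v, a.s + b.s - co a.v b.v⟩⟩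
instance : One (Hs n) := ⟨⟨0, 0⟩⟩
instance : Inv (Hs n) := ⟨fun a => ⟨-a.v, -a.s - co a.v a.v⟩⟩

lemma mul_v (a b : Hs n) : (a * b).v = a.v + b.v := rfl
lemma mul_s (a b : Hs n) : (a * b).s = a.s + b.s - co a.v b.v := rfl
lemma one_v : (1 : Hs n).v = 0 := rfl
lemma one_s : (1 : Hs n).s = 0 := rfl
lemma inv_v (a : Hs n) : (a⁻¹).v = -a.v := rfl
lemma inv_s (a : Hs n) : (a⁻¹).s = -a.s - co a.v a.v := rfl

instance : Group (Hs n) := Group.ofLeftAxioms
  (fun a b c => by
    apply Hs.ext
    · simp only [mul_v, add_assoc]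
    · simp only [mul_v, mul_s, co_add_left, co_add_right]; ring)
  (fun a => by
    apply Hs.ext
    · simp only [mul_v, one_v, zero_add]
    · simp only [mul_s, one_s, one_v, co_zero_left]; ring)
  (fun a => by
    apply Hs.ext
    · simp only [mul_v, inv_v, one_v, neg_add_cancel]
    · simp only [mul_s, inv_s, inv_v, one_s, co_neg_left]; ring)

/-- The central generator. -/
def z : Hs n := ⟨0, 1⟩

lemma z_comm (a : Hs n) : Commute z a := by
  change z * a = a * z
  apply Hs.ext
  · simp only [mul_v, z]; abel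
  · simp only [mul_s, z, co_zero_left, co_zero_right]; ring

lemma z_zpow (k : ℤ) : (z : Hs n) ^ k = ⟨0, k⟩ := by
  induction k using Int.induction_on with
  | zero => rfl
  | succ k ih =>
    rw [zpow_add_one, ih]
    apply Hs.ext
    · simp only [mul_v, z]; abel
    · simp only [mul_s, z, co_zero_left]; ring
  | pred k ih =>
    rw [zpow_sub_one, ih]
    apply Hs.ext
    · simp only [mul_v, inv_v, z]; abel
    · simp only [mul_s, inv_s, z, co_zero_left]; ring

/-- The commutator is given by the symplectic form. -/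
lemma comm_eq (a b : Hs n) : a * b * a⁻¹ * b⁻¹ = z ^ om a.v b.v := by
  rw [z_zpow]
  apply Hs.ext
  · simp only [mul_v, inv_v]; abel
  · simp only [mul_s, mul_v, inv_s, inv_v, co_add_left, co_neg_right, om_eq_co]
    simp only [co_neg_left]
    ring

lemma mul_eq (a b : Hs n) : a * b = z ^ om a.v b.v * (b * a) := by
  rw [← comm_eq]; group

lemma eq_z_of_v {a : Hs n} (h : a.v = 0) : a = z ^ a.s := by
  rw [z_zpow]
  exact Hs.ext h rfl

lemma eq_mul_z {a b : Hs n} (h : a.v = b.v) : ∃ k : ℤ, a = b * z ^ k := by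
  have h1 : (b⁻¹ * a).v = 0 := by rw [mul_v, inv_v, h, neg_add_cancel]
  exact ⟨_, by rw [← eq_z_of_v h1, mul_inv_cancel_left]⟩

end Hs

/-- The homomorphism from the free group. -/
def hs : Fr n →* Hs n := FreeGroup.lift (Sum.elim (fun i => ⟨e i, 0⟩) (fun i => ⟨f i, 0⟩))

lemma hs_a (i : Fin n) : hs (of (Sum.inl i)) = ⟨e i, 0⟩ := by simp [hs]
lemma hs_b (i : Fin n) : hs (of (Sum.inr i)) = ⟨f i, 0⟩ := by simp [hs]

/-- The class in the first homology. -/
def clr (x : Fr n) : V n := (hs x).v

lemma clr_a (i : Fin n) : clr (of (Sum.inl i) : Fr n) = e i := by rw [clr, hs_a]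
lemma clr_b (i : Fin n) : clr (of (Sum.inr i) : Fr n) = f i := by rw [clr, hs_b]
lemma clr_mul (x y : Fr n) : clr (x * y) = clr x + clr y := by
  rw [clr, map_mul]; rfl
lemma clr_inv (x : Fr n) : clr x⁻¹ = -clr x := by
  rw [clr, map_inv]; rfl
lemma clr_one : clr (1 : Fr n) = 0 := by rw [clr, map_one]; rfl

/-- Equality of homomorphisms from the free group. -/
lemma fr_ext {H : Type*} [Group H] {p q : Fr n →* H} (ha : ∀ i, p (of (Sum.inl i)) = q (of (Sum.inl i)))
    (hb : ∀ i, p (of (Sum.inr i)) = q (of (Sum.inr i))) : p = q := by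
  ext i
  rcases i with i | i
  · exact ha i
  · exact hb i

section univ

variable {P : Type*} [Group P]

/-- Elements satisfying the relations of the Heisenberg group. -/
structure HRel (A B : Fin n → P) (c : P) : Prop where
  ca : ∀ i, Commute c (A i)
  cb : ∀ i, Commute c (B i)
  aa : ∀ i j, i ≠ j → Commute (A i) (A j)
  bb : ∀ i j, i ≠ j → Commute (B i) (B j)
  ab : ∀ i j, i ≠ j → Commute (A i) (B j)
  rel : ∀ i, A i * B i * (A i)⁻¹ * (B i)⁻¹ = c

lemma comm_zpow_zpow {x y c : P} (hx : Commute c x) (hy : Commute c y)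
    (h : x * y * x⁻¹ * y⁻¹ = c) (k l : ℤ) : y ^ l * x ^ k = x ^ k * y ^ l * c ^ (-(l * k)) := by
  have h1 : y * x = x * y * c⁻¹ := by
    have : c * (y * x) = x * y := by rw [← h]; group
    have h2 : Commute c (y * x) := hy.mul_right hx
    rw [h2.eq] at this
    rw [← this]; group
  -- y x^k = x^k y c^{-k}
  have h2 : ∀ k : ℤ, y * x ^ k = x ^ k * y * c ^ (-k) := by
    intro k
    have e1 : SemiconjBy y x (x * c⁻¹) := by
      change y * x = x * c⁻¹ * y
      rw [h1, mul_assoc, mul_assoc, hy.inv_left.eq]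
    have e2 := e1.zpow_right k
    rw [(hx.inv_left.symm).mul_zpow] at e2
    rw [e2.eq, mul_assoc, mul_assoc, ← zpow_neg_one, ← zpow_mul, neg_one_mul,
      (hy.zpow_left (-k)).eq]
  have e1 : SemiconjBy (x ^ k)⁻¹ y (y * c ^ (-k)) := by
    change (x ^ k)⁻¹ * y = y * c ^ (-k) * (x ^ k)⁻¹
    rw [inv_mul_eq_iff_eq_mul, ← mul_assoc, ← mul_assoc, ← h2]
    group
  have e2 := e1.zpow_right l
  have hc : Commute y (c ^ (-k)) := (hy.zpow_left (-k)).symm
  rw [hc.mul_zpow, ← zpow_mul] at e2
  have e3 := e2.eq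
  rw [inv_mul_eq_iff_eq_mul] at e3
  calc y ^ l * x ^ k = (x ^ k * (y ^ l * c ^ (-k * l) * (x ^ k)⁻¹)) * x ^ k := by rw [← e3]
    _ = x ^ k * y ^ l * c ^ (-k * l) := by group
    _ = _ := by rw [show -(l * k) = -k * l by ring]

variable {A B : Fin n → P} {c : P}

private lemma pw {A : Fin n → P} (h : ∀ i j, i ≠ j → Commute (A i) (A j)) :
    Pairwise fun i j => ∀ x y : Multiplicative ℤ,
      Commute ((fun i => zpowersHom P (A i)) i x) ((fun i => zpowersHom P (A i)) j y) := by
  intro i j hij x y
  simp only [zpowersHom_apply]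
  exact ((h i j hij).zpow_left _).zpow_right _

private noncomputable def PA (h : HRel A B c) : (Fin n → Multiplicative ℤ) →* P :=
  MonoidHom.noncommPiCoprod (fun i => zpowersHom P (A i)) (pw h.aa)

private noncomputable def PB (h : HRel A B c) : (Fin n → Multiplicative ℤ) →* P :=
  MonoidHom.noncommPiCoprod (fun i => zpowersHom P (B i)) (pw h.bb)

private lemma PA_single (h : HRel A B c) (i : Fin n) (k : ℤ) :
    PA h (Pi.mulSingle i (Multiplicative.ofAdd k)) = A i ^ k := by
  rw [PA, MonoidHom.noncommPiCoprod_mulSingle, zpowersHom_apply]; rfl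

private lemma PB_single (h : HRel A B c) (i : Fin n) (k : ℤ) :
    PB h (Pi.mulSingle i (Multiplicative.ofAdd k)) = B i ^ k := by
  rw [PB, MonoidHom.noncommPiCoprod_mulSingle, zpowersHom_apply]; rfl

private lemma pi_ind {Q : (Fin n → Multiplicative ℤ) → Prop} (h1 : Q 1)
    (hs : ∀ i k, Q (Pi.mulSingle i (Multiplicative.ofAdd k))) (hm : ∀ x y, Q x → Q y → Q (x * y))
    (x : Fin n → Multiplicative ℤ) : Q x := by
  classical
  have h2 : x = ∏ i, Pi.mulSingle i (x i) := (Finset.univ_prod_mulSingle x).symm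
  rw [h2]
  refine Finset.prod_induction _ Q hm h1 (fun i _ => hs i (Multiplicative.toAdd (x i)))

private lemma PA_c (h : HRel A B c) (x : Fin n → Multiplicative ℤ) : Commute c (PA h x) := by
  refine pi_ind (Q := fun x => Commute c (PA h x)) ?_ ?_ ?_ x
  · rw [map_one]; exact Commute.one_right c
  · intro i k; rw [PA_single]; exact (h.ca i).zpow_right k
  · intro x y hx hy; rw [map_mul]; exact hx.mul_right hy

private lemma PB_c (h : HRel A B c) (x : Fin n → Multiplicative ℤ) : Commute c (PB h x) := by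
  refine pi_ind (Q := fun x => Commute c (PB h x)) ?_ ?_ ?_ x
  · rw [map_one]; exact Commute.one_right c
  · intro i k; rw [PB_single]; exact (h.cb i).zpow_right k
  · intro x y hx hy; rw [map_mul]; exact hx.mul_right hy

private def dt (y x : Fin n → Multiplicative ℤ) : ℤ :=
  ∑ i, Multiplicative.toAdd (y i) * Multiplicative.toAdd (x i)

private lemma dt_mul_right (y x x' : Fin n → Multiplicative ℤ) :
    dt y (x * x') = dt y x + dt y x' := by
  simp only [dt, ← Finset.sum_add_distrib, Pi.mul_apply, toAdd_mul]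
  exact Finset.sum_congr rfl fun i _ => by ring

private lemma dt_mul_left (y y' x : Fin n → Multiplicative ℤ) :
    dt (y * y') x = dt y x + dt y' x := by
  simp only [dt, ← Finset.sum_add_distrib, Pi.mul_apply, toAdd_mul]
  exact Finset.sum_congr rfl fun i _ => by ring

private lemma dt_single (i j : Fin n) (k l : ℤ) :
    dt (Pi.mulSingle j (Multiplicative.ofAdd l)) (Pi.mulSingle i (Multiplicative.ofAdd k)) =
      if i = j then l * k else 0 := by
  classical
  rw [dt]
  by_cases hij : i = j
  · subst hij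
    rw [if_pos rfl, Finset.sum_eq_single i]
    · simp
    · intro m _ hm
      rw [Pi.mulSingle_eq_of_ne hm]; simp
    · simp
  · rw [if_neg hij]
    refine Finset.sum_eq_zero fun m _ => ?_
    by_cases hm : m = j
    · subst hm
      rw [Pi.mulSingle_eq_of_ne (Ne.symm hij)]; simp
    · rw [Pi.mulSingle_eq_of_ne hm]; simp

private lemma PBA (h : HRel A B c) (y x : Fin n → Multiplicative ℤ) :
    PB h y * PA h x = PA h x * PB h y * c ^ (-dt y x) := by
  refine pi_ind (Q := fun x => PB h y * PA h x = PA h x * PB h y * c ^ (-dt y x)) ?_ ?_ ?_ x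
  · have : dt y 1 = 0 := by simp [dt]
    rw [map_one, this]; simp
  · intro i k
    refine pi_ind (Q := fun y => PB h y * PA h (Pi.mulSingle i (Multiplicative.ofAdd k)) =
      PA h (Pi.mulSingle i (Multiplicative.ofAdd k)) * PB h y *
        c ^ (-dt y (Pi.mulSingle i (Multiplicative.ofAdd k)))) ?_ ?_ ?_ y
    · have : dt 1 (Pi.mulSingle i (Multiplicative.ofAdd k)) = 0 := by simp [dt]
      rw [map_one, this]; simp
    · intro j l
      rw [PA_single, PB_single, dt_single]
      by_cases hij : i = j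
      · subst hij
        rw [if_pos rfl]
        exact comm_zpow_zpow (h.ca i) (h.cb i) (h.rel i) k l
      · rw [if_neg hij, neg_zero, zpow_zero, mul_one]
        exact (((h.ab i j hij).zpow_left k).zpow_right l).symm.eq
    · intro y y' h1 h2
      have h3 := (PB_c h y').zpow_left (-dt y (Pi.mulSingle i (Multiplicative.ofAdd k)))
      rw [map_mul, mul_assoc, h2, dt_mul_left, ← mul_assoc, ← mul_assoc, h1, neg_add, zpow_add]
      calc _ = PA h (Pi.mulSingle i (Multiplicative.ofAdd k)) * PB h y *
            (c ^ (-dt y (Pi.mulSingle i (Multiplicative.ofAdd k))) * PB h y') *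
            c ^ (-dt y' (Pi.mulSingle i (Multiplicative.ofAdd k))) := by group
        _ = _ := by rw [h3.eq]; group
  · intro x x' h1 h2
    have h3 := (PA_c h x').zpow_left (-dt y x)
    rw [map_mul, ← mul_assoc, h1, dt_mul_right, neg_add, zpow_add]
    calc _ = PA h x * PB h y * (c ^ (-dt y x) * PA h x') := by group
      _ = PA h x * (PB h y * PA h x') * c ^ (-dt y x) := by rw [h3.eq]; group
      _ = _ := by rw [h2, (Commute.zpow_zpow_self c (-dt y x) (-dt y x')).eq]; group

/-- The universal property of the Heisenberg group. -/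
theorem Hs.lift (h : HRel A B c) : ∃ θ : Hs n →* P, (∀ i, θ ⟨e i, 0⟩ = A i) ∧
    (∀ i, θ ⟨f i, 0⟩ = B i) ∧ θ Hs.z = c := by
  classical
  let px : V n → Fin n → Multiplicative ℤ := fun v i => Multiplicative.ofAdd (v i).1
  let py : V n → Fin n → Multiplicative ℤ := fun v i => Multiplicative.ofAdd (v i).2
  have px_add : ∀ v w, px (v + w) = px v * px w := fun v w => rfl
  have py_add : ∀ v w, py (v + w) = py v * py w := fun v w => rfl
  have hdt : ∀ v w, dt (py v) (px w) = co v w := fun v w => rfl
  let θ : Hs n →* P :=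
    { toFun := fun a => PA h (px a.v) * PB h (py a.v) * c ^ a.s
      map_one' := by
        have h1 : px (1 : Hs n).v = 1 := rfl
        have h2 : py (1 : Hs n).v = 1 := rfl
        rw [h1, h2, map_one, map_one, Hs.one_s, zpow_zero]; simp
      map_mul' := by
        intro a b
        rw [Hs.mul_v, Hs.mul_s, px_add, py_add, map_mul, map_mul]
        have h3 := PBA h (py a.v) (px b.v)
        rw [hdt] at h3
        have h4 := ((PA_c h (px b.v)).zpow_left a.s).eq
        have h5 := ((PB_c h (py b.v)).zpow_left a.s).eq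
        have h6 := ((PB_c h (py b.v)).zpow_left (-co a.v b.v)).eq
        calc PA h (px a.v) * PA h (px b.v) * (PB h (py a.v) * PB h (py b.v)) *
              c ^ (a.s + b.s - co a.v b.v) =
            PA h (px a.v) * (PA h (px b.v) * PB h (py a.v)) * (PB h (py b.v) *
              c ^ (-co a.v b.v)) * c ^ a.s * c ^ b.s := by
              rw [show a.s + b.s - co a.v b.v = -co a.v b.v + a.s + b.s by ring, zpow_add, zpow_add]
              group
          _ = PA h (px a.v) * (PB h (py a.v) * PA h (px b.v)) * PB h (py b.v) * c ^ a.s *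
              c ^ b.s := by
              rw [← h6, h3]; group
          _ = PA h (px a.v) * PB h (py a.v) * PA h (px b.v) * (PB h (py b.v) * c ^ a.s) *
              c ^ b.s := by group
          _ = PA h (px a.v) * PB h (py a.v) * (PA h (px b.v) * c ^ a.s) * PB h (py b.v) *
              c ^ b.s := by rw [← h5]; group
          _ = _ := by rw [← h4]; group }
  have hθ : ∀ a : Hs n, θ a = PA h (px a.v) * PB h (py a.v) * c ^ a.s := fun a => rfl
  refine ⟨θ, fun i => ?_, fun i => ?_, ?_⟩
  · have h1 : px (e i : V n) = Pi.mulSingle i (Multiplicative.ofAdd 1) := by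
      funext j
      by_cases hj : j = i
      · subst hj
        change Multiplicative.ofAdd ((e j : V n) j).1 = _
        rw [e_self, Pi.mulSingle_eq_same]
      · change Multiplicative.ofAdd ((e i : V n) j).1 = _
        rw [e_ne hj, Pi.mulSingle_eq_of_ne hj]; rfl
    have h2 : py (e i : V n) = 1 := by
      funext j
      by_cases hj : j = i
      · subst hj
        change Multiplicative.ofAdd ((e j : V n) j).2 = _
        rw [e_self]; rfl
      · change Multiplicative.ofAdd ((e i : V n) j).2 = _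
        rw [e_ne hj]; rfl
    rw [hθ]
    change PA h (px (e i)) * PB h (py (e i)) * c ^ (0 : ℤ) = A i
    rw [h1, h2, PA_single, map_one, zpow_one, zpow_zero, mul_one, mul_one]
  · have h1 : py (f i : V n) = Pi.mulSingle i (Multiplicative.ofAdd 1) := by
      funext j
      by_cases hj : j = i
      · subst hj
        change Multiplicative.ofAdd ((f j : V n) j).2 = _
        rw [f_self, Pi.mulSingle_eq_same]
      · change Multiplicative.ofAdd ((f i : V n) j).2 = _
        rw [f_ne hj, Pi.mulSingle_eq_of_ne hj]; rfl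
    have h2 : px (f i : V n) = 1 := by
      funext j
      by_cases hj : j = i
      · subst hj
        change Multiplicative.ofAdd ((f j : V n) j).1 = _
        rw [f_self]; rfl
      · change Multiplicative.ofAdd ((f i : V n) j).1 = _
        rw [f_ne hj]; rfl
    rw [hθ]
    change PA h (px (f i)) * PB h (py (f i)) * c ^ (0 : ℤ) = B i
    rw [h1, h2, PB_single, map_one, zpow_one, zpow_zero, mul_one, one_mul]
  · rw [hθ]
    change PA h (px 0) * PB h (py 0) * c ^ (1 : ℤ) = c
    have h1 : px (0 : V n) = 1 := rfl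
    have h2 : py (0 : V n) = 1 := rfl
    rw [h1, h2, map_one, map_one, zpow_one, one_mul, one_mul]

/-- Elements with trivial image in the Heisenberg group die in every group where the relations
hold. -/
theorem hs_ker (π : Fr n →* P) (h : HRel (fun i => π (of (Sum.inl i))) (fun i => π (of (Sum.inr i))) c)
    {y : Fr n} (hy : hs y = 1) : π y = 1 := by
  obtain ⟨θ, h1, h2, -⟩ := Hs.lift h
  have h3 : π = θ.comp hs := by
    refine fr_ext (fun i => ?_) (fun i => ?_)
    · rw [MonoidHom.comp_apply, hs_a, h1]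
    · rw [MonoidHom.comp_apply, hs_b, h2]
  rw [h3, MonoidHom.comp_apply, hy, map_one]

end univ

/-- Automorphisms of the free group preserving the symplectic form. -/
def Sym (n : ℕ) : Subgroup (MulAut (Fr n)) where
  carrier := {φ | ∀ x y, om (clr (φ x)) (clr (φ y)) = om (clr x) (clr y)}
  mul_mem' := by
    intro φ ψ h1 h2 x y
    rw [MulAut.mul_apply, MulAut.mul_apply, h1, h2]
  one_mem' := fun _ _ => rfl
  inv_mem' := by
    intro φ h1 x y
    have h2 := h1 (φ⁻¹ x) (φ⁻¹ y)
    rw [MulAut.apply_inv_self, MulAut.apply_inv_self] at h2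
    exact h2.symm

lemma mem_Sym {φ : MulAut (Fr n)} :
    φ ∈ Sym n ↔ ∀ x y, om (clr (φ x)) (clr (φ y)) = om (clr x) (clr y) := Iff.rfl

/-- A symplectic automorphism acts on the Heisenberg group, fixing the centre. -/
theorem Sym.exists_mu {φ : MulAut (Fr n)} (hφ : φ ∈ Sym n) : ∃ μ : Hs n →* Hs n,
    (∀ y, hs (φ y) = μ (hs y)) ∧ μ Hs.z = Hs.z := by
  have hc : ∀ x y : Fr n, hs (φ x) * hs (φ y) * (hs (φ x))⁻¹ * (hs (φ y))⁻¹ =
      Hs.z ^ om (clr x) (clr y) := by
    intro x y
    rw [Hs.comm_eq]
    congr 1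
    exact hφ x y
  have hcm : ∀ x y : Fr n, om (clr x) (clr y) = 0 → Commute (hs (φ x)) (hs (φ y)) := by
    intro x y h0
    have h1 := hc x y
    rw [h0, zpow_zero, mul_inv_eq_one, mul_inv_eq_iff_eq_mul] at h1
    exact h1
  have hR : HRel (fun i => hs (φ (of (Sum.inl i)))) (fun i => hs (φ (of (Sum.inr i))))
      (Hs.z : Hs n) := by
    refine ⟨fun i => Hs.z_comm _, fun i => Hs.z_comm _, fun i j _ => ?_, fun i j _ => ?_,
      fun i j hij => ?_, fun i => ?_⟩
    · exact hcm _ _ (by rw [clr_a, clr_a, om_e_e])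
    · exact hcm _ _ (by rw [clr_b, clr_b, om_f_f])
    · exact hcm _ _ (by rw [clr_a, clr_b, om_e_f_ne hij])
    · have := hc (of (Sum.inl i)) (of (Sum.inr i))
      rw [clr_a, clr_b, om_e_f, zpow_one] at this
      exact this
  obtain ⟨θ, h1, h2, h3⟩ := Hs.lift hR
  have h4 : hs.comp φ.toMonoidHom = θ.comp hs := by
    refine fr_ext (fun i => ?_) (fun i => ?_)
    · rw [MonoidHom.comp_apply, MonoidHom.comp_apply, hs_a, h1]; rfl
    · rw [MonoidHom.comp_apply, MonoidHom.comp_apply, hs_b, h2]; rfl
  exact ⟨θ, fun y => DFunLike.congr_fun h4 y, h3⟩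

theorem Sym.hs_one {φ : MulAut (Fr n)} (hφ : φ ∈ Sym n) {y : Fr n} (hy : hs y = 1) :
    hs (φ y) = 1 := by
  obtain ⟨μ, h1, -⟩ := Sym.exists_mu hφ
  rw [h1, hy, map_one]

theorem Sym.hs_eq {φ : MulAut (Fr n)} (hφ : φ ∈ Sym n) {x y : Fr n} (hy : hs x = hs y) :
    hs (φ x) = hs (φ y) := by
  obtain ⟨μ, h1, -⟩ := Sym.exists_mu hφ
  rw [h1, h1, hy]

end Pool.Agent.H.MP_59b15d_al.H93C
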