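/-
The bounding pair maps of genus one of two consecutive handles and their action on the Heisenberg
group.
-/
import Pool.Agent.H.MP_59b15d_al.h93c.Heis
import Pool.Agent.H.MP_59b15d_al.h76r.Ri

set_option autoImplicit false
set_option linter.unusedSimpArgs false

namespace Pool.Agent.H.MP_59b15d_al.H93C

open Pool.Agent.H.MP_59b15d_al.SP
open Pool.MP_59b15d_al.H24T Pool.MP_59b15d_al.H76R
open FreeGroup (of)

variable {n : ℕ}

lemma FAi_b (i : Fin n) : (FA i)⁻¹ (of (Sum.inr i)) = of (Sum.inr i) * (of (Sum.inl i))⁻¹ := by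
  have h1 : FA i (of (Sum.inr i) * (of (Sum.inl i))⁻¹) = of (Sum.inr i) := by
    rw [map_mul, map_inv, FA_self, FA_ne i (by simp)]
    group
  conv_lhs => rw [← h1]
  rw [MulAut.inv_apply_self]

lemma FAi_ne (i : Fin n) {x : Fin n ⊕ Fin n} (hx : x ≠ Sum.inr i) : (FA i)⁻¹ (of x) = of x := by
  conv_lhs => rw [← FA_ne i hx]
  rw [MulAut.inv_apply_self]

lemma FBi_a (i : Fin n) : (FB i)⁻¹ (of (Sum.inl i)) = of (Sum.inl i) * (of (Sum.inr i))⁻¹ := by
  have h1 : FB i (of (Sum.inl i) * (of (Sum.inr i))⁻¹) = of (Sum.inl i) := by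
    rw [map_mul, map_inv, FB_self, FB_ne i (by simp)]
    group
  conv_lhs => rw [← h1]
  rw [MulAut.inv_apply_self]

lemma FBi_ne (i : Fin n) {x : Fin n ⊕ Fin n} (hx : x ≠ Sum.inl i) : (FB i)⁻¹ (of x) = of x := by
  conv_lhs => rw [← FB_ne i hx]
  rw [MulAut.inv_apply_self]

section chainA

variable (i j : Fin n) (hij : i ≠ j)

/-- The chain element `TB i * (TA i)⁻¹ * TC i j`. -/
def cA : MulAut (Fr n) := FB i * (FA i)⁻¹ * FC i j hij

lemma cA_ai : cA i j hij (of (Sum.inl i)) =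
    of (Sum.inl i) * of (Sum.inr i) * (of (Sum.inl j))⁻¹ * (of (Sum.inl i))⁻¹ := by
  have n1 : j ≠ i := hij.symm
  simp only [cA, MulAut.mul_apply, FC_ai, map_mul, map_inv, FAi_b, FAi_ne i (x := Sum.inl i) (by simp),
    FAi_ne i (x := Sum.inl j) (by simp), FB_self, FB_ne i (x := Sum.inl j) (by simp [n1]),
    FB_ne i (x := Sum.inr i) (by simp)]
  group

lemma cA_bi : cA i j hij (of (Sum.inr i)) =
    of (Sum.inl i) * of (Sum.inl j) * (of (Sum.inl i))⁻¹ * (of (Sum.inl j))⁻¹ *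
      (of (Sum.inl i))⁻¹ := by
  have n1 : j ≠ i := hij.symm
  simp only [cA, MulAut.mul_apply, FC_bi, map_mul, map_inv, FAi_b, FAi_ne i (x := Sum.inl i) (by simp),
    FAi_ne i (x := Sum.inl j) (by simp), FB_self, FB_ne i (x := Sum.inl j) (by simp [n1]),
    FB_ne i (x := Sum.inr i) (by simp)]
  group

lemma cA_aj : cA i j hij (of (Sum.inl j)) =
    of (Sum.inl i) * of (Sum.inl j) * (of (Sum.inl i))⁻¹ := by
  have n1 : j ≠ i := hij.symm
  simp only [cA, MulAut.mul_apply, FC_aj, map_mul, map_inv, FAi_b, FAi_ne i (x := Sum.inl i) (by simp),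
    FAi_ne i (x := Sum.inl j) (by simp), FB_self, FB_ne i (x := Sum.inl j) (by simp [n1]),
    FB_ne i (x := Sum.inr i) (by simp)]
  group

lemma cA_bj : cA i j hij (of (Sum.inr j)) =
    of (Sum.inr j) * (of (Sum.inl j))⁻¹ * (of (Sum.inl i))⁻¹ := by
  have n1 : j ≠ i := hij.symm
  simp only [cA, MulAut.mul_apply, FC_bj, map_mul, map_inv, FAi_b, FAi_ne i (x := Sum.inl i) (by simp),
    FAi_ne i (x := Sum.inl j) (by simp), FAi_ne i (x := Sum.inr j) (by simp [n1]), FB_self,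
    FB_ne i (x := Sum.inl j) (by simp [n1]), FB_ne i (x := Sum.inr i) (by simp),
    FB_ne i (x := Sum.inr j) (by simp)]
  group

lemma cA_a_ne {k : Fin n} (h1 : k ≠ i) (h2 : k ≠ j) : cA i j hij (of (Sum.inl k)) = of (Sum.inl k) := by
  simp only [cA, MulAut.mul_apply, FC_a_ne i j hij h1 h2, FAi_ne i (x := Sum.inl k) (by simp),
    FB_ne i (x := Sum.inl k) (by simp [h1])]

lemma cA_b_ne {k : Fin n} (h1 : k ≠ i) (h2 : k ≠ j) : cA i j hij (of (Sum.inr k)) = of (Sum.inr k) := by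
  simp only [cA, MulAut.mul_apply, FC_b_ne i j hij h1 h2, FAi_ne i (x := Sum.inr k) (by simp [h1]),
    FB_ne i (x := Sum.inr k) (by simp)]

/-- The square of the chain element. -/
def cA2 : MulAut (Fr n) := cA i j hij * cA i j hij

lemma cA2_ai : cA2 i j hij (of (Sum.inl i)) =
    of (Sum.inl i) * of (Sum.inr i) * (of (Sum.inl i))⁻¹ * (of (Sum.inl j))⁻¹ *
      (of (Sum.inr i))⁻¹ * (of (Sum.inl i))⁻¹ := by
  simp only [cA2, MulAut.mul_apply, cA_ai, cA_bi, cA_aj, cA_bj, map_mul, map_inv]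
  group

lemma cA2_bi : cA2 i j hij (of (Sum.inr i)) =
    of (Sum.inl i) * of (Sum.inr i) * of (Sum.inl j) * (of (Sum.inr i))⁻¹ *
      (of (Sum.inr i))⁻¹ * (of (Sum.inl i))⁻¹ := by
  simp only [cA2, MulAut.mul_apply, cA_ai, cA_bi, cA_aj, cA_bj, map_mul, map_inv]
  group

lemma cA2_aj : cA2 i j hij (of (Sum.inl j)) =
    of (Sum.inl i) * of (Sum.inr i) * of (Sum.inl j) * (of (Sum.inr i))⁻¹ *
      (of (Sum.inl i))⁻¹ := by
  simp only [cA2, MulAut.mul_apply, cA_ai, cA_bi, cA_aj, cA_bj, map_mul, map_inv]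
  group

lemma cA2_bj : cA2 i j hij (of (Sum.inr j)) =
    of (Sum.inr j) * (of (Sum.inl j))⁻¹ * (of (Sum.inr i))⁻¹ * (of (Sum.inl i))⁻¹ := by
  simp only [cA2, MulAut.mul_apply, cA_ai, cA_bi, cA_aj, cA_bj, map_mul, map_inv]
  group

lemma cA2_a_ne {k : Fin n} (h1 : k ≠ i) (h2 : k ≠ j) :
    cA2 i j hij (of (Sum.inl k)) = of (Sum.inl k) := by
  simp only [cA2, MulAut.mul_apply, cA_a_ne i j hij h1 h2]

lemma cA2_b_ne {k : Fin n} (h1 : k ≠ i) (h2 : k ≠ j) :
    cA2 i j hij (of (Sum.inr k)) = of (Sum.inr k) := by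
  simp only [cA2, MulAut.mul_apply, cA_b_ne i j hij h1 h2]

/-- The bounding pair map with class `-e j`. -/
def BPa : MulAut (Fr n) := (FB i * (FA i)⁻¹ * FC i j hij) ^ 4 * FA j ^ 2

lemma BPa_eq : BPa i j hij = cA2 i j hij * cA2 i j hij * (FA j * FA j) := by
  rw [BPa, cA2, cA, pow_two (FA j), pow_succ, pow_succ, pow_two]
  simp only [mul_assoc]

/-- The commutator of a handle. -/
def kf (i : Fin n) : Fr n :=
  of (Sum.inl i) * of (Sum.inr i) * (of (Sum.inl i))⁻¹ * (of (Sum.inr i))⁻¹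

lemma BPa_ai : BPa i j hij (of (Sum.inl i)) =
    (kf i * of (Sum.inl j)) * of (Sum.inl i) * (kf i * of (Sum.inl j))⁻¹ := by
  rw [BPa_eq, kf]
  simp only [MulAut.mul_apply, FA_ne j (x := Sum.inl i) (by simp), cA2_ai, cA2_bi, cA2_aj, cA2_bj,
    map_mul, map_inv]
  group

lemma BPa_bi : BPa i j hij (of (Sum.inr i)) =
    (kf i * of (Sum.inl j)) * of (Sum.inr i) * (kf i * of (Sum.inl j))⁻¹ := by
  rw [BPa_eq, kf]
  simp only [MulAut.mul_apply, FA_ne j (x := Sum.inr i) (by simp [hij]), cA2_ai, cA2_bi, cA2_aj,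
    cA2_bj, map_mul, map_inv]
  group

lemma BPa_aj : BPa i j hij (of (Sum.inl j)) = kf i * of (Sum.inl j) * (kf i)⁻¹ := by
  rw [BPa_eq, kf]
  simp only [MulAut.mul_apply, FA_ne j (x := Sum.inl j) (by simp), cA2_ai, cA2_bi, cA2_aj, cA2_bj,
    map_mul, map_inv]
  group

lemma BPa_bj : BPa i j hij (of (Sum.inr j)) = of (Sum.inr j) * (kf i)⁻¹ := by
  rw [BPa_eq, kf]
  simp only [MulAut.mul_apply, FA_self, FA_ne j (x := Sum.inl j) (by simp), cA2_ai, cA2_bi, cA2_aj,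
    cA2_bj, map_mul, map_inv]
  group

lemma BPa_a_ne {k : Fin n} (h1 : k ≠ i) (h2 : k ≠ j) :
    BPa i j hij (of (Sum.inl k)) = of (Sum.inl k) := by
  rw [BPa_eq]
  simp only [MulAut.mul_apply, FA_ne j (x := Sum.inl k) (by simp), cA2_a_ne i j hij h1 h2]

lemma BPa_b_ne {k : Fin n} (h1 : k ≠ i) (h2 : k ≠ j) :
    BPa i j hij (of (Sum.inr k)) = of (Sum.inr k) := by
  rw [BPa_eq]
  simp only [MulAut.mul_apply, FA_ne j (x := Sum.inr k) (by simp [h2]), cA2_b_ne i j hij h1 h2]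

end chainA

section chainB

variable (i j : Fin n) (hij : i ≠ j)

/-- The chain element `(TA j)⁻¹ * TB j * TC i j`. -/
def cB : MulAut (Fr n) := (FA j)⁻¹ * FB j * FC i j hij

lemma cB_ai : cB i j hij (of (Sum.inl i)) =
    of (Sum.inl i) * of (Sum.inl j) * (of (Sum.inr j))⁻¹ * (of (Sum.inl j))⁻¹ *
      of (Sum.inr i) := by
  simp only [cB, MulAut.mul_apply, FC_ai, map_mul, map_inv, FAi_b, FB_self,
    FB_ne j (x := Sum.inl i) (by simp [hij]), FB_ne j (x := Sum.inr i) (by simp),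
    FAi_ne j (x := Sum.inl i) (by simp), FAi_ne j (x := Sum.inr i) (by simp [hij]),
    FAi_ne j (x := Sum.inl j) (by simp)]
  group

lemma cB_bi : cB i j hij (of (Sum.inr i)) =
    (of (Sum.inr i))⁻¹ * of (Sum.inl j) * of (Sum.inr j) * (of (Sum.inl j))⁻¹ * of (Sum.inr i) *
      of (Sum.inl j) * (of (Sum.inr j))⁻¹ * (of (Sum.inl j))⁻¹ * of (Sum.inr i) := by
  simp only [cB, MulAut.mul_apply, FC_bi, map_mul, map_inv, FAi_b, FB_self,
    FB_ne j (x := Sum.inl i) (by simp [hij]), FB_ne j (x := Sum.inr i) (by simp),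
    FAi_ne j (x := Sum.inl i) (by simp), FAi_ne j (x := Sum.inr i) (by simp [hij]),
    FAi_ne j (x := Sum.inl j) (by simp)]
  group

lemma cB_aj : cB i j hij (of (Sum.inl j)) =
    (of (Sum.inr i))⁻¹ * of (Sum.inl j) * of (Sum.inr j) * (of (Sum.inl j))⁻¹ *
      of (Sum.inr i) := by
  simp only [cB, MulAut.mul_apply, FC_aj, map_mul, map_inv, FAi_b, FB_self,
    FB_ne j (x := Sum.inl i) (by simp [hij]), FB_ne j (x := Sum.inr i) (by simp),
    FAi_ne j (x := Sum.inl i) (by simp), FAi_ne j (x := Sum.inr i) (by simp [hij]),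
    FAi_ne j (x := Sum.inl j) (by simp)]
  group

lemma cB_bj : cB i j hij (of (Sum.inr j)) = (of (Sum.inl j))⁻¹ * of (Sum.inr i) := by
  simp only [cB, MulAut.mul_apply, FC_bj, map_mul, map_inv, FAi_b, FB_self,
    FB_ne j (x := Sum.inl i) (by simp [hij]), FB_ne j (x := Sum.inr i) (by simp),
    FB_ne j (x := Sum.inr j) (by simp),
    FAi_ne j (x := Sum.inl i) (by simp), FAi_ne j (x := Sum.inr i) (by simp [hij]),
    FAi_ne j (x := Sum.inl j) (by simp)]
  group

lemma cB_a_ne {k : Fin n} (h1 : k ≠ i) (h2 : k ≠ j) : cB i j hij (of (Sum.inl k)) = of (Sum.inl k) := by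
  simp only [cB, MulAut.mul_apply, FC_a_ne i j hij h1 h2, FAi_ne j (x := Sum.inl k) (by simp),
    FB_ne j (x := Sum.inl k) (by simp [h2])]

lemma cB_b_ne {k : Fin n} (h1 : k ≠ i) (h2 : k ≠ j) : cB i j hij (of (Sum.inr k)) = of (Sum.inr k) := by
  simp only [cB, MulAut.mul_apply, FC_b_ne i j hij h1 h2, FAi_ne j (x := Sum.inr k) (by simp [h2]),
    FB_ne j (x := Sum.inr k) (by simp)]

/-- The square of the chain element. -/
def cB2 : MulAut (Fr n) := cB i j hij * cB i j hij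

lemma cB2_ai : cB2 i j hij (of (Sum.inl i)) =
    of (Sum.inl i) * of (Sum.inl j) * of (Sum.inl j) * (of (Sum.inr j))⁻¹ * (of (Sum.inl j))⁻¹ *
      of (Sum.inr i) := by
  simp only [cB2, MulAut.mul_apply, cB_ai, cB_bi, cB_aj, cB_bj, map_mul, map_inv]
  group

lemma cB2_bi : cB2 i j hij (of (Sum.inr i)) =
    (of (Sum.inr i))⁻¹ * of (Sum.inl j) * of (Sum.inr j) * (of (Sum.inl j))⁻¹ *
      (of (Sum.inl j))⁻¹ * of (Sum.inr i) * of (Sum.inl j) * of (Sum.inl j) *
      (of (Sum.inr j))⁻¹ * (of (Sum.inl j))⁻¹ * of (Sum.inr i) := by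
  simp only [cB2, MulAut.mul_apply, cB_ai, cB_bi, cB_aj, cB_bj, map_mul, map_inv]
  group

lemma cB2_aj : cB2 i j hij (of (Sum.inl j)) =
    (of (Sum.inr i))⁻¹ * of (Sum.inl j) * of (Sum.inr j) * (of (Sum.inl j))⁻¹ *
      (of (Sum.inl j))⁻¹ * of (Sum.inr i) * of (Sum.inl j) * (of (Sum.inr j))⁻¹ *
      (of (Sum.inl j))⁻¹ * of (Sum.inr i) := by
  simp only [cB2, MulAut.mul_apply, cB_ai, cB_bi, cB_aj, cB_bj, map_mul, map_inv]
  group

lemma cB2_bj : cB2 i j hij (of (Sum.inr j)) =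
    of (Sum.inl j) * (of (Sum.inr j))⁻¹ * (of (Sum.inl j))⁻¹ * of (Sum.inr i) := by
  simp only [cB2, MulAut.mul_apply, cB_ai, cB_bi, cB_aj, cB_bj, map_mul, map_inv]
  group

lemma cB2_a_ne {k : Fin n} (h1 : k ≠ i) (h2 : k ≠ j) :
    cB2 i j hij (of (Sum.inl k)) = of (Sum.inl k) := by
  simp only [cB2, MulAut.mul_apply, cB_a_ne i j hij h1 h2]

lemma cB2_b_ne {k : Fin n} (h1 : k ≠ i) (h2 : k ≠ j) :
    cB2 i j hij (of (Sum.inr k)) = of (Sum.inr k) := by
  simp only [cB2, MulAut.mul_apply, cB_b_ne i j hij h1 h2]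

/-- The bounding pair map with class `f i`. -/
def BPb : MulAut (Fr n) := ((FA j)⁻¹ * FB j * FC i j hij) ^ 4 * (FB i ^ 2)⁻¹

lemma BPb_eq : BPb i j hij = cB2 i j hij * cB2 i j hij * ((FB i)⁻¹ * (FB i)⁻¹) := by
  rw [BPb, cB2, cB, pow_two (FB i), mul_inv_rev, pow_succ, pow_succ, pow_two]
  simp only [mul_assoc]

lemma BPb_ai : BPb i j hij (of (Sum.inl i)) =
    of (Sum.inl i) * ((of (Sum.inr i))⁻¹ * (kf j)⁻¹ * of (Sum.inr i)) := by
  rw [BPb_eq, kf]
  simp only [MulAut.mul_apply, FBi_a, FBi_ne i (x := Sum.inr i) (by simp), cB2_ai, cB2_bi, cB2_aj,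
    cB2_bj, map_mul, map_inv]
  group

lemma BPb_bi : BPb i j hij (of (Sum.inr i)) =
    ((of (Sum.inr i))⁻¹ * kf j * of (Sum.inr i)) * of (Sum.inr i) *
      ((of (Sum.inr i))⁻¹ * kf j * of (Sum.inr i))⁻¹ := by
  rw [BPb_eq, kf]
  simp only [MulAut.mul_apply, FBi_ne i (x := Sum.inr i) (by simp), cB2_ai, cB2_bi, cB2_aj,
    cB2_bj, map_mul, map_inv]
  group

lemma BPb_aj : BPb i j hij (of (Sum.inl j)) =
    ((of (Sum.inr i))⁻¹ * kf j) * of (Sum.inl j) * ((of (Sum.inr i))⁻¹ * kf j)⁻¹ := by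
  rw [BPb_eq, kf]
  simp only [MulAut.mul_apply, FBi_ne i (x := Sum.inl j) (by simp [hij.symm]), cB2_ai, cB2_bi,
    cB2_aj, cB2_bj, map_mul, map_inv]
  group

lemma BPb_bj : BPb i j hij (of (Sum.inr j)) =
    ((of (Sum.inr i))⁻¹ * kf j) * of (Sum.inr j) * ((of (Sum.inr i))⁻¹ * kf j)⁻¹ := by
  rw [BPb_eq, kf]
  simp only [MulAut.mul_apply, FBi_ne i (x := Sum.inr j) (by simp), cB2_ai, cB2_bi,
    cB2_aj, cB2_bj, map_mul, map_inv]
  group

lemma BPb_a_ne {k : Fin n} (h1 : k ≠ i) (h2 : k ≠ j) :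
    BPb i j hij (of (Sum.inl k)) = of (Sum.inl k) := by
  rw [BPb_eq]
  simp only [MulAut.mul_apply, FBi_ne i (x := Sum.inl k) (by simp [h1]), cB2_a_ne i j hij h1 h2]

lemma BPb_b_ne {k : Fin n} (h1 : k ≠ i) (h2 : k ≠ j) :
    BPb i j hij (of (Sum.inr k)) = of (Sum.inr k) := by
  rw [BPb_eq]
  simp only [MulAut.mul_apply, FBi_ne i (x := Sum.inr k) (by simp), cB2_b_ne i j hij h1 h2]

end chainB

/-- The homomorphism `x ↦ hs x * z ^ om v x`. -/
def hsh (v : V n) : Fr n →* Hs n where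
  toFun x := hs x * Hs.z ^ om v (clr x)
  map_one' := by rw [map_one, clr_one, om_zero_right, zpow_zero, mul_one]
  map_mul' x y := by
    have h1 := (Hs.z_comm (hs y)).zpow_left (om v (clr x))
    rw [map_mul, clr_mul, om_add_right, zpow_add]
    calc hs x * hs y * (Hs.z ^ om v (clr x) * Hs.z ^ om v (clr y)) =
        hs x * (hs y * Hs.z ^ om v (clr x)) * Hs.z ^ om v (clr y) := by group
      _ = _ := by rw [← h1.eq]; group

lemma hsh_apply (v : V n) (x : Fr n) : hsh v x = hs x * Hs.z ^ om v (clr x) := rfl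

lemma hs_kf (i : Fin n) : hs (kf i) = Hs.z := by
  have h1 := Hs.comm_eq (hs (of (Sum.inl i)) : Hs n) (hs (of (Sum.inr i)))
  rw [kf, map_mul, map_mul, map_mul, map_inv, map_inv, h1]
  have h2 : om (hs (of (Sum.inl i)) : Hs n).v (hs (of (Sum.inr i)) : Hs n).v = 1 := by
    have e1 : (hs (of (Sum.inl i)) : Hs n).v = e i := clr_a i
    have e2 : (hs (of (Sum.inr i)) : Hs n).v = f i := clr_b i
    rw [e1, e2, om_e_f]
  rw [h2, zpow_one]

/-- Conjugation in the Heisenberg group. -/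
lemma hs_conj (w x : Fr n) : hs (w * x * w⁻¹) = hs x * Hs.z ^ om (clr w) (clr x) := by
  have h1 := Hs.mul_eq (hs w) (hs x)
  have h2 := (Hs.z_comm (hs x)).zpow_left (om (clr w) (clr x))
  rw [map_mul, map_mul, map_inv, h1]
  change Hs.z ^ om (clr w) (clr x) * (hs x * hs w) * (hs w)⁻¹ = _
  rw [← mul_assoc, mul_inv_cancel_right, h2.eq]

lemma clr_kf (i : Fin n) : clr (kf i) = 0 := by
  rw [clr, hs_kf]
  rfl

/-- The action of the first bounding pair map on the Heisenberg group. -/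
theorem hs_BPa (i j : Fin n) (hij : i ≠ j) (x : Fr n) :
    hs (BPa i j hij x) = hs x * Hs.z ^ om (-e j) (clr x) := by
  have key : hs.comp (BPa i j hij).toMonoidHom = hsh (-e j) := by
    refine fr_ext (fun k => ?_) (fun k => ?_)
    · change hs (BPa i j hij (of (Sum.inl k))) = hsh (-e j) (of (Sum.inl k))
      rw [hsh_apply, clr_a]
      have h0 : om (-e j) (e k) = 0 := by rw [om_neg_left, om_e_e, neg_zero]
      rw [h0, zpow_zero, mul_one]
      by_cases h1 : k = i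
      · subst h1
        rw [BPa_ai, hs_conj, clr_mul, clr_kf, clr_a, clr_a, zero_add, om_e_e, zpow_zero, mul_one]
      · by_cases h2 : k = j
        · subst h2
          rw [BPa_aj, hs_conj, clr_kf, om_zero_left, zpow_zero, mul_one]
        · rw [BPa_a_ne i j hij h1 h2]
    · change hs (BPa i j hij (of (Sum.inr k))) = hsh (-e j) (of (Sum.inr k))
      rw [hsh_apply, clr_b, om_neg_left]
      by_cases h1 : k = i
      · subst h1
        rw [BPa_bi, hs_conj, clr_mul, clr_kf, clr_a, clr_b, zero_add, om_e_f_ne hij.symm, neg_zero]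
      · by_cases h2 : k = j
        · subst h2
          rw [BPa_bj, map_mul, map_inv, hs_kf, om_e_f, zpow_neg, zpow_one]
        · rw [BPa_b_ne i j hij h1 h2, om_e_f_ne (fun h3 => h2 h3.symm), neg_zero, zpow_zero,
            mul_one]
  exact DFunLike.congr_fun key x

/-- The action of the second bounding pair map on the Heisenberg group. -/
theorem hs_BPb (i j : Fin n) (hij : i ≠ j) (x : Fr n) :
    hs (BPb i j hij x) = hs x * Hs.z ^ om (f i) (clr x) := by
  have key : hs.comp (BPb i j hij).toMonoidHom = hsh (f i) := by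
    refine fr_ext (fun k => ?_) (fun k => ?_)
    · change hs (BPb i j hij (of (Sum.inl k))) = hsh (f i) (of (Sum.inl k))
      rw [hsh_apply, clr_a]
      by_cases h1 : k = i
      · subst h1
        have h3 : (of (Sum.inr k) : Fr n)⁻¹ * (kf j)⁻¹ * of (Sum.inr k) =
            (of (Sum.inr k))⁻¹ * (kf j)⁻¹ * ((of (Sum.inr k))⁻¹)⁻¹ := by rw [inv_inv]
        rw [BPb_ai, map_mul, h3, hs_conj, clr_inv, clr_inv, clr_kf, neg_zero, om_zero_right,
          zpow_zero, mul_one, map_inv, hs_kf, om_f_e, zpow_neg, zpow_one]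
      · rw [om_f_e_ne (fun h3 => h1 h3.symm), zpow_zero, mul_one]
        by_cases h2 : k = j
        · subst h2
          rw [BPb_aj, hs_conj, clr_mul, clr_inv, clr_kf, clr_b, clr_a, add_zero, om_neg_left,
            om_f_e_ne hij, neg_zero, zpow_zero, mul_one]
        · rw [BPb_a_ne i j hij h1 h2]
    · change hs (BPb i j hij (of (Sum.inr k))) = hsh (f i) (of (Sum.inr k))
      rw [hsh_apply, clr_b, om_f_f, zpow_zero, mul_one]
      by_cases h1 : k = i
      · subst h1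
        have h4 : clr ((of (Sum.inr k))⁻¹ * kf j * of (Sum.inr k)) = 0 := by
          rw [clr_mul, clr_mul, clr_inv, clr_kf, add_zero, neg_add_cancel]
        rw [BPb_bi, hs_conj, h4, om_zero_left, zpow_zero, mul_one]
      · by_cases h2 : k = j
        · subst h2
          rw [BPb_bj, hs_conj, clr_mul, clr_inv, clr_kf, clr_b, clr_b, add_zero, om_neg_left,
            om_f_f, neg_zero, zpow_zero, mul_one]
        · rw [BPb_b_ne i j hij h1 h2]
  exact DFunLike.congr_fun key x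

section pair

variable {G : Type*} [Group G] {a b : Fin (n + 1) → G} (h : IsSurf a b)

lemma Pair.pow {f' : MulAut (Fr n)} {f : MulAut G} (hf : Pair h f' f) (k : ℕ) :
    Pair h (f' ^ k) (f ^ k) := by
  induction k with
  | zero => exact Pair.one h
  | succ k ih =>
    rw [pow_succ, pow_succ]
    exact ih.mul hf

/-- The first bounding pair map of the surface group. -/
noncomputable def GPa {i j : Fin n} (hij : (j : ℕ) = i + 1) : MulAut G :=
  (TB h i.castSucc * (TA h i.castSucc)⁻¹ * TCc h hij) ^ 4 * TA h j.castSucc ^ 2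

/-- The second bounding pair map of the surface group. -/
noncomputable def GPb {i j : Fin n} (hij : (j : ℕ) = i + 1) : MulAut G :=
  ((TA h j.castSucc)⁻¹ * TB h j.castSucc * TCc h hij) ^ 4 * (TB h i.castSucc ^ 2)⁻¹

theorem pair_BPa {i j : Fin n} (hij : (j : ℕ) = i + 1) :
    Pair h (BPa i j (ne_of_hij hij)) (GPa h hij) :=
  (Pair.pow h (((pair_TB h i).mul (pair_TA h i).inv).mul (pair_TC h hij)) 4).mul
    (Pair.pow h (pair_TA h j) 2)

theorem pair_BPb {i j : Fin n} (hij : (j : ℕ) = i + 1) :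
    Pair h (BPb i j (ne_of_hij hij)) (GPb h hij) :=
  (Pair.pow h (((pair_TA h j).inv.mul (pair_TB h j)).mul (pair_TC h hij)) 4).mul
    (Pair.pow h (pair_TB h i) 2).inv

end pair

end Pool.Agent.H.MP_59b15d_al.H93C
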