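/-
The action of the pushes on the first homology, the winding exponent of a pair, and the
centraliser trick.
-/
import Pool.Agent.H.MP_59b15d_al.h93c.Heis
import Pool.Agent.H.MP_59b15d_al.h11c.Hone
import Pool.Agent.H.MP_59b15d_al.h73e.Lb

set_option autoImplicit false

namespace Pool.Agent.H.MP_59b15d_al.H93C

open Pool.Agent.H.MP_59b15d_al.SP
open Pool.MP_59b15d_al.H24T Pool.MP_59b15d_al.H76R Pool.MP_59b15d_al.H73E
open FreeGroup (of)

variable {n : ℕ}

/-- Extension by zero. -/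
def emb : V n →ₗ[ℤ] V (n + 1) where
  toFun v := Fin.snoc (α := fun _ => ℤ × ℤ) v 0
  map_add' v w := by
    funext i
    refine Fin.lastCases ?_ (fun i => ?_) i
    · simp
    · simp
  map_smul' k v := by
    funext i
    refine Fin.lastCases ?_ (fun i => ?_) i
    · simp
    · simp

lemma emb_cs (v : V n) (i : Fin n) : emb v i.castSucc = v i := by
  change Fin.snoc (α := fun _ => ℤ × ℤ) v 0 i.castSucc = v i
  rw [Fin.snoc_castSucc]

lemma emb_last (v : V n) : emb v (Fin.last n) = 0 := by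
  change Fin.snoc (α := fun _ => ℤ × ℤ) v 0 (Fin.last n) = 0
  rw [Fin.snoc_last]

lemma emb_e (i : Fin n) : emb (e i) = e i.castSucc := by
  funext j
  refine Fin.lastCases ?_ (fun j => ?_) j
  · rw [emb_last, e_ne (last_ne_cs i)]
  · rw [emb_cs]
    by_cases hj : j = i
    · subst hj; rw [e_self, e_self]
    · rw [e_ne hj, e_ne (fun h => hj (Fin.castSucc_injective _ h))]

lemma emb_f (i : Fin n) : emb (f i) = f i.castSucc := by
  funext j
  refine Fin.lastCases ?_ (fun j => ?_) j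
  · rw [emb_last, f_ne (last_ne_cs i)]
  · rw [emb_cs]
    by_cases hj : j = i
    · subst hj; rw [f_self, f_self]
    · rw [f_ne hj, f_ne (fun h => hj (Fin.castSucc_injective _ h))]

lemma emb_inj {v w : V n} (h : emb v = emb w) : v = w := by
  funext i
  rw [← emb_cs v, ← emb_cs w, h]

lemma om_emb (v w : V n) : om (emb v) (emb w) = om v w := by
  rw [om, Fin.sum_univ_castSucc, om]
  simp only [emb_cs, emb_last]
  simp

lemma V_hom_ext {W : Type*} [AddCommGroup W] {p q : V n →ₗ[ℤ] W} (h1 : ∀ i, p (e i) = q (e i))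
    (h2 : ∀ i, p (f i) = q (f i)) : p = q := by
  refine LinearMap.ext fun v => ?_
  rw [expand v, map_sum, map_sum]
  refine Finset.sum_congr rfl fun i _ => ?_
  rw [map_add, map_add, map_smul, map_smul, map_smul, map_smul, h1, h2]

/-- `v ↦ om u v`, as a linear map. -/
def omR (u : V n) : V n →ₗ[ℤ] ℤ where
  toFun v := om u v
  map_add' v w := om_add_right u v w
  map_smul' k v := by rw [om_smul_right]; rfl

lemma omL_apply (u v : V n) : omR u v = om u v := rfl

def qf (v : V n) : ℤ := ∑ i, (v i).1 * (v i).2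
def lf (v : V n) : ℤ := ∑ i, ((v i).1 - (v i).2)

lemma qf_add (v w : V n) : qf (v + w) = qf v + qf w + co v w + co w v := by
  simp only [qf, co, ← Finset.sum_add_distrib, Pi.add_apply, Prod.snd_add, Prod.fst_add]
  exact Finset.sum_congr rfl fun i _ => by ring

lemma lf_add (v w : V n) : lf (v + w) = lf v + lf w := by
  simp only [lf, ← Finset.sum_add_distrib, Pi.add_apply, Prod.snd_add, Prod.fst_add]
  exact Finset.sum_congr rfl fun i _ => by ring

/-- The winding number. -/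
def wn (a : Hs n) : ℤ := 2 * a.s + qf a.v + lf a.v

lemma wn_mul (a b : Hs n) : wn (a * b) = wn a + wn b + om a.v b.v := by
  rw [wn, wn, wn, Hs.mul_v, Hs.mul_s, qf_add, lf_add, om_eq_co]
  ring

lemma wn_one : wn (1 : Hs n) = 0 := by
  rw [wn, Hs.one_s, Hs.one_v]
  simp [qf, lf]

lemma wn_inv (a : Hs n) : wn a⁻¹ = -wn a := by
  have h := wn_mul a a⁻¹
  rw [mul_inv_cancel, wn_one, Hs.inv_v, om_neg_right, om_self] at h
  omega

lemma wn_e (i : Fin n) : wn (⟨e i, 0⟩ : Hs n) = 1 := by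
  classical
  have h1 : qf (e i : V n) = 0 := by
    rw [qf]
    refine Finset.sum_eq_zero fun j _ => ?_
    by_cases hj : j = i
    · subst hj; rw [e_self]; simp
    · rw [e_ne hj]; simp
  have h2 : lf (e i : V n) = 1 := by
    rw [lf, Finset.sum_eq_single i]
    · rw [e_self]; simp
    · intro j _ hj; rw [e_ne hj]; simp
    · simp
  change 2 * (0 : ℤ) + qf (e i) + lf (e i) = 1
  rw [h1, h2]; simp

lemma wn_f (i : Fin n) : wn (⟨f i, 0⟩ : Hs n) = -1 := by
  classical
  have h1 : qf (f i : V n) = 0 := by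
    rw [qf]
    refine Finset.sum_eq_zero fun j _ => ?_
    by_cases hj : j = i
    · subst hj; rw [f_self]; simp
    · rw [f_ne hj]; simp
  have h2 : lf (f i : V n) = -1 := by
    rw [lf, Finset.sum_eq_single i]
    · rw [f_self]; simp
    · intro j _ hj; rw [f_ne hj]; simp
    · simp
  change 2 * (0 : ℤ) + qf (f i) + lf (f i) = -1
  rw [h1, h2]; simp

section

variable {G : Type*} [Group G] {a b : Fin (n + 1) → G} (h : IsSurf a b)

lemma cls_jR (y : Fr n) : cls h (jR a b y) = emb (clr y) := by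
  induction y using fr_induction with
  | h1 => rw [map_one, cls_one, clr_one, map_zero]
  | ha k => rw [jR_a, cls_a, clr_a, emb_e]
  | hb k => rw [jR_b, cls_b, clr_b, emb_f]
  | hm x y hx hy => rw [map_mul, cls_mul, hx, hy, clr_mul, map_add]
  | hi x hx => rw [map_inv, cls_inv, hx, clr_inv, map_neg]

/-- The action of the pushes on the first homology. -/
theorem XX_H1 (y : Fr n) : H1 h (XX h y) (e (Fin.last n)) = e (Fin.last n) ∧
    (∀ v : V n, H1 h (XX h y) (emb v) = emb v + om (clr y) v • (e (Fin.last n) : V (n + 1))) ∧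
    H1 h (XX h y) (f (Fin.last n)) = f (Fin.last n) + emb (clr y) +
      wn (hs y) • (e (Fin.last n) : V (n + 1)) := by
  have key : ∀ (X : MulAut G) (u : V n),
      (∀ i, H1 h X (e i.castSucc) = e i.castSucc + om u (e i) • (e (Fin.last n) : V (n + 1))) →
      (∀ i, H1 h X (f i.castSucc) = f i.castSucc + om u (f i) • (e (Fin.last n) : V (n + 1))) →
      ∀ v : V n, H1 h X (emb v) = emb v + om u v • (e (Fin.last n) : V (n + 1)) := by
    intro X u h1 h2 v
    have h3 : (H1 h X).toLinearMap.comp emb =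
        emb + (LinearMap.toSpanSingleton ℤ (V (n + 1)) (e (Fin.last n))).comp (omR u) := by
      refine V_hom_ext (fun i => ?_) (fun i => ?_)
      · change H1 h X (emb (e i)) = emb (e i) + om u (e i) • (e (Fin.last n) : V (n + 1))
        rw [emb_e, h1]
      · change H1 h X (emb (f i)) = emb (f i) + om u (f i) • (e (Fin.last n) : V (n + 1))
        rw [emb_f, h2]
    exact LinearMap.congr_fun h3 v
  induction y using fr_induction with
  | h1 =>
    rw [map_one, map_one, map_one, clr_one, wn_one]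
    refine ⟨rfl, fun v => ?_, ?_⟩
    · rw [om_zero_left, zero_smul, add_zero]; rfl
    · rw [map_zero, zero_smul, add_zero, add_zero]; rfl
  | ha k =>
    rw [XX_a]
    refine ⟨?_, key _ _ (fun i => ?_) (fun i => ?_), ?_⟩
    · rw [H1_e, Xa_al]
      simp only [cls_mul, cls_inv, cls_a, cls_b]
      abel
    · rw [clr_a, om_e_e, zero_smul, add_zero, H1_e]
      rcases seg_cases k i.castSucc with hi | hi | ⟨hi, hi2⟩ | hi
      · rw [Xa_a_lt h k hi, cls_a]
      · rw [hi, Xa_aj]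
        simp only [cls_mul, cls_inv, cls_a, cls_b]
        abel
      · rw [Xa_a_mid h k hi hi2]
        simp only [cls_mul, cls_inv, cls_a, cls_b]
        abel
      · exact absurd hi.symm (last_ne_cs i)
    · rw [clr_a, H1_f]
      rcases seg_cases k i.castSucc with hi | hi | ⟨hi, hi2⟩ | hi
      · rw [Xa_b_lt h k hi, cls_b, om_e_f_ne (by rintro rfl; exact absurd hi (lt_irrefl _)),
          zero_smul, add_zero]
      · have hik : i = k := Fin.castSucc_injective _ hi
        subst hik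
        rw [Xa_bj, om_e_f]
        simp only [cls_mul, cls_inv, cls_a, cls_b]
        module
      · rw [Xa_b_mid h k hi hi2, om_e_f_ne (by rintro rfl; exact absurd hi (lt_irrefl _)),
          zero_smul, add_zero]
        simp only [cls_mul, cls_inv, cls_a, cls_b]
        abel
      · exact absurd hi.symm (last_ne_cs i)
    · rw [H1_f, Xa_bl, clr_a, hs_a, wn_e, emb_e]
      simp only [cls_mul, cls_inv, cls_a, cls_b]
      module
  | hb k =>
    rw [XX_b]
    refine ⟨?_, key _ _ (fun i => ?_) (fun i => ?_), ?_⟩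
    · rw [H1_e, Xb_al]
      simp only [cls_mul, cls_inv, cls_a, cls_b]
      abel
    · rw [clr_b, H1_e]
      rcases seg_cases k i.castSucc with hi | hi | ⟨hi, hi2⟩ | hi
      · rw [Xb_a_lt h k hi, cls_a, om_f_e_ne (by rintro rfl; exact absurd hi (lt_irrefl _)),
          zero_smul, add_zero]
      · have hik : i = k := Fin.castSucc_injective _ hi
        subst hik
        rw [Xb_aj, om_f_e]
        simp only [cls_mul, cls_inv, cls_a, cls_b]
        module
      · rw [Xb_a_mid h k hi hi2, om_f_e_ne (by rintro rfl; exact absurd hi (lt_irrefl _)),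
          zero_smul, add_zero]
        simp only [cls_mul, cls_inv, cls_a, cls_b]
        abel
      · exact absurd hi.symm (last_ne_cs i)
    · rw [clr_b, om_f_f, zero_smul, add_zero, H1_f]
      rcases seg_cases k i.castSucc with hi | hi | ⟨hi, hi2⟩ | hi
      · rw [Xb_b_lt h k hi, cls_b]
      · rw [hi, Xb_bj]
        simp only [cls_mul, cls_inv, cls_a, cls_b]
        abel
      · rw [Xb_b_mid h k hi hi2]
        simp only [cls_mul, cls_inv, cls_a, cls_b]
        abel
      · exact absurd hi.symm (last_ne_cs i)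
    · rw [H1_f, Xb_bl, clr_b, hs_b, wn_f, emb_f]
      simp only [cls_mul, cls_inv, cls_a, cls_b]
      module
  | hm x y hx hy =>
    have hmul : ∀ w, H1 h (XX h (x * y)) w = H1 h (XX h x) (H1 h (XX h y) w) := by
      intro w
      rw [map_mul, map_mul]; rfl
    refine ⟨?_, fun v => ?_, ?_⟩
    · rw [hmul, hy.1, hx.1]
    · rw [hmul, hy.2.1, map_add, hx.2.1, map_smul, hx.1, clr_mul, om_add_left]
      module
    · rw [hmul, hy.2.2, map_add, map_add, hx.2.2, hx.2.1, map_smul, hx.1, clr_mul, map_mul,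
        wn_mul, map_add]
      change _ = f (Fin.last n) + (emb (clr x) + emb (clr y)) +
        (wn (hs x) + wn (hs y) + om (clr x) (clr y)) • (e (Fin.last n) : V (n + 1))
      module
  | hi x hx =>
    have hinv : ∀ w w', H1 h (XX h x) w' = w → H1 h (XX h x⁻¹) w = w' := by
      intro w w' hw
      have h1 : H1 h (XX h x⁻¹) (H1 h (XX h x) w') = w' := by
        have : H1 h (XX h x⁻¹) (H1 h (XX h x) w') = H1 h (XX h x⁻¹ * XX h x) w' := by
          rw [map_mul (H1 h)]; rfl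
        rw [this, ← map_mul (XX h), inv_mul_cancel, map_one, map_one]; rfl
      rw [← hw]; exact h1
    refine ⟨hinv _ _ hx.1, fun v => hinv _ _ ?_, hinv _ _ ?_⟩
    · rw [map_add, map_smul, hx.1, hx.2.1, clr_inv, om_neg_left]
      module
    · rw [map_add, map_add, map_smul, hx.1, hx.2.2, hx.2.1, clr_inv, om_neg_right, om_self,
        map_inv, wn_inv, map_neg]
      module

lemma TT_H1 (k : ℤ) : H1 h (TT h ^ k) (e (Fin.last n)) = e (Fin.last n) ∧
    H1 h (TT h ^ k) (f (Fin.last n)) = f (Fin.last n) + k • (e (Fin.last n) : V (n + 1)) := by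
  have hz : ∀ (x : G) (k : ℤ), cls h (x ^ k) = k • cls h x := by
    intro x k
    induction k using Int.induction_on with
    | zero => rw [zpow_zero, cls_one, zero_smul]
    | succ k ih => rw [zpow_add_one, cls_mul, ih]; module
    | pred k ih => rw [zpow_sub_one, cls_mul, cls_inv, ih]; module
  refine ⟨?_, ?_⟩
  · rw [H1_e, (TT_zpow h k).1, cls_a]
  · rw [H1_f, (TT_zpow h k).2, cls_mul, hz, cls_a, cls_b]

/-- The exponent of the twist in the equivariance of the pushes. -/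
theorem pair_exp {f' : MulAut (Fr n)} {φ : MulAut G} (hp : Pair h f' φ) (y : Fr n) (k : ℤ)
    (hk : φ * XX h y * φ⁻¹ = XX h (f' y) * TT h ^ k) : k = wn (hs y) - wn (hs (f' y)) := by
  have hL : H1 h φ (e (Fin.last n)) = e (Fin.last n) := by rw [H1_e, hp.fa, cls_a]
  have hF : H1 h φ (f (Fin.last n)) = f (Fin.last n) := by rw [H1_f, hp.fb, cls_b]
  have hE : H1 h φ (emb (clr y)) = emb (clr (f' y)) := by
    rw [← cls_jR h, H1_cls, hp.fj, cls_jR]
  have hmul : ∀ (X Y : MulAut G) w, H1 h (X * Y) w = H1 h X (H1 h Y w) := by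
    intro X Y w
    rw [map_mul]; rfl
  have hk' : φ * XX h y = XX h (f' y) * TT h ^ k * φ := by rw [← hk]; group
  have h1 := congrArg (fun X => H1 h X (f (Fin.last n))) hk'
  simp only [hmul] at h1
  rw [hF, (TT_H1 h k).2, map_add, map_smul, (XX_H1 h (f' y)).1, (XX_H1 h (f' y)).2.2,
    (XX_H1 h y).2.2, map_add, map_add, map_smul, hF, hE, hL] at h1
  have h2 := congrFun h1 (Fin.last n)
  simp only [Pi.add_apply, Pi.smul_apply, emb_last, e_self, f_self] at h2
  have h3 := congrArg Prod.fst h2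
  simp only [Prod.fst_add, Prod.smul_fst, smul_eq_mul] at h3
  simp at h3
  omega

/-- The equivariance is exact for automorphisms acting trivially on the Heisenberg group. -/
theorem pair_exact {f' : MulAut (Fr n)} {φ : MulAut G} (hp : Pair h f' φ) (y : Fr n)
    (hy : hs (f' y) = hs y) : φ * XX h y * φ⁻¹ = XX h (f' y) := by
  obtain ⟨k, hk⟩ := hp.fX y
  have h1 := pair_exp h hp y k hk
  rw [hy, sub_self] at h1
  rw [hk, h1, zpow_zero, mul_one]

/-- Pairs from the mapping class group are symplectic. -/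
theorem pair_sym {f' : MulAut (Fr n)} {φ : MulAut G} (hp : Pair h f' φ) (hφ : φ ∈ MMs h) :
    f' ∈ Sym n := by
  rw [← MCG_eq h] at hφ
  have h1 : ∀ u v, om (H1 h φ u) (H1 h φ v) = om u v := H1_mem_Sp h hφ
  intro x y
  have h2 := h1 (emb (clr x)) (emb (clr y))
  rw [← cls_jR h x, ← cls_jR h y, H1_cls, H1_cls, hp.fj, hp.fj, cls_jR, cls_jR, cls_jR, cls_jR,
    om_emb, om_emb] at h2
  exact h2

/-- The generation of the mapping class group (variant of `MMs_le`). -/
theorem MMs_le' (S : Subgroup (MulAut G)) (hc : ∀ x, MulAut.conj x ∈ S)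
    (hS : ∀ (t' : MulAut (Fr n)) (t : MulAut G), Pair h t' t → t ∈ MMs h →
      ∀ ψ ∈ S, t * ψ * t⁻¹ ∈ S)
    (hX : ∀ j, Xb h j ∈ S) (hA : TA h (Fin.last n) ∈ S) (hB : TB h (Fin.last n) ∈ S) :
    MMs h ≤ S := by
  have mA : ∀ i, TA h i ∈ MMs h := fun i => Subgroup.subset_closure (Or.inr (Or.inl ⟨_, rfl⟩))
  have mB : ∀ i, TB h i ∈ MMs h :=
    fun i => Subgroup.subset_closure (Or.inr (Or.inr (Or.inl ⟨_, rfl⟩)))
  have mC : ∀ i j hij, TC h i j hij ∈ MMs h :=
    fun i j hij => Subgroup.subset_closure (Or.inr (Or.inr (Or.inr ⟨_, _, _, rfl⟩)))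
  have mCc : ∀ {i j : Fin n} (hij : (j : ℕ) = i + 1), TCc h hij ∈ MMs h := fun hij => mC _ _ _
  have hlast : ∀ (j : Fin n) (hj : ((Fin.last n : Fin (n + 1)) : ℕ) = j.castSucc + 1),
      TC h j.castSucc (Fin.last n) hj ∈ S ∧ TB h j.castSucc ∈ S := by
    intro j hj
    have h1 := X0_eq h j hj
    have h2 := TB_comm_TB h (Fin.castSucc_lt_last j).ne
    have h3 := braid_CB h hj
    set C := TC h j.castSucc (Fin.last n) hj with hC
    have h4 : C * TB h (Fin.last n) * C⁻¹ ∈ S := by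
      have h5 := S.mul_mem (S.mul_mem (hX j) hB) (S.inv_mem (hX j))
      have h6 : Xb h j * TB h (Fin.last n) * (Xb h j)⁻¹ = C * TB h (Fin.last n) * C⁻¹ := by
        have h7 : Xb h j = C * (TB h j.castSucc)⁻¹ := by rw [← h1, mul_inv_cancel_right]
        rw [h7, mul_inv_rev, inv_inv]
        calc C * (TB h j.castSucc)⁻¹ * TB h (Fin.last n) * (TB h j.castSucc * C⁻¹) =
            C * ((TB h j.castSucc)⁻¹ * (TB h (Fin.last n) * TB h j.castSucc)) * C⁻¹ := by group
          _ = _ := by rw [← h2.eq]; group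
      rwa [h6] at h5
    have hCS : C ∈ S := by
      have h8 : C = TB h (Fin.last n) * (C * TB h (Fin.last n) * C⁻¹) * (TB h (Fin.last n))⁻¹ := by
        calc C = C * TB h (Fin.last n) * C * C⁻¹ * (TB h (Fin.last n))⁻¹ := by group
          _ = _ := by rw [h3]; group
      rw [h8]
      exact S.mul_mem (S.mul_mem hB h4) (S.inv_mem hB)
    refine ⟨hCS, ?_⟩
    have h9 : TB h j.castSucc = (Xb h j)⁻¹ * C := by rw [← h1, inv_mul_cancel_left]
    rw [h9]
    exact S.mul_mem (S.inv_mem (hX j)) hCS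
  have hAB : ∀ j : Fin n, TB h j.castSucc ∈ S → TA h j.castSucc ∈ S := by
    intro j hj
    exact braid_solve (s := (TB h j.castSucc)⁻¹) (t := TA h j.castSucc)
      (braid_AB h j.castSucc).symm S (S.inv_mem hj) (hS _ _ (pair_TA h j) (mA _) _ (S.inv_mem hj))
  have hdown : ∀ d : ℕ, ∀ j : Fin n, (j : ℕ) + 1 + d = n → TB h j.castSucc ∈ S := by
    intro d
    induction d with
    | zero =>
      intro j hj
      exact (hlast j (by simp only [Fin.val_last, Fin.val_castSucc]; omega)).2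
    | succ d ih =>
      intro j hj
      have hj1 : (j : ℕ) + 1 < n := by omega
      let j' : Fin n := ⟨j + 1, hj1⟩
      have hij : (j' : ℕ) = j + 1 := rfl
      have h1 := ih j' (by simp only [j']; omega)
      have h2 : TCc h hij ∈ S :=
        braid_solve (s := TB h j'.castSucc) (t := TCc h hij) (braid_CB h (cs_hij hij)).symm S h1
          (hS _ _ (pair_TC h hij) (mCc hij) _ h1)
      have h3 : (TA h j.castSucc)⁻¹ ∈ S :=
        braid_solve (s := TCc h hij) (t := (TA h j.castSucc)⁻¹) (braid_CA h (cs_hij hij)) S h2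
          (hS _ _ (pair_TA h j).inv ((MMs h).inv_mem (mA _)) _ h2)
      have h4 := S.inv_mem h3
      rw [inv_inv] at h4
      have h5 : (TB h j.castSucc)⁻¹ ∈ S :=
        braid_solve (s := TA h j.castSucc) (t := (TB h j.castSucc)⁻¹) (braid_AB h j.castSucc) S h4
          (hS _ _ (pair_TB h j).inv ((MMs h).inv_mem (mB _)) _ h4)
      have h6 := S.inv_mem h5
      rwa [inv_inv] at h6
  have hBall : ∀ j : Fin n, TB h j.castSucc ∈ S := by
    intro j
    have := j.2
    exact hdown (n - 1 - j) j (by omega)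
  rw [MMs, Subgroup.closure_le]
  rintro T (⟨x, rfl⟩ | ⟨i, rfl⟩ | ⟨i, rfl⟩ | ⟨i, j, hij, rfl⟩)
  · exact hc x
  · refine Fin.lastCases hA (fun i => ?_) i
    exact hAB i (hBall i)
  · exact Fin.lastCases hB (fun i => hBall i) i
  · have hi : (i : ℕ) < n := by
      have := j.2
      omega
    obtain ⟨i', rfl⟩ : ∃ i' : Fin n, i = i'.castSucc := ⟨⟨i, hi⟩, rfl⟩
    rcases Fin.eq_castSucc_or_eq_last j with ⟨j', rfl⟩ | rfl
    · have hij' : (j' : ℕ) = i' + 1 := hij
      have h1 := hBall j'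
      exact braid_solve (s := TB h j'.castSucc) (t := TCc h hij') (braid_CB h (cs_hij hij')).symm
        S h1 (hS _ _ (pair_TC h hij') (mCc hij') _ h1)
    · exact (hlast i' hij).1

/-- The elements of the mapping class group which are central modulo `N`. -/
def Zc (N : Subgroup (MulAut G)) (hN : ∀ φ ∈ MMs h, ∀ x ∈ N, φ * x * φ⁻¹ ∈ N) :
    Subgroup (MulAut G) where
  carrier := {φ | φ ∈ MMs h ∧ ∀ ψ ∈ MMs h, φ * ψ * φ⁻¹ * ψ⁻¹ ∈ N}
  one_mem' := ⟨(MMs h).one_mem, fun ψ _ => by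
    rw [one_mul, inv_one, mul_one, mul_inv_cancel]; exact N.one_mem⟩
  mul_mem' := by
    rintro φ φ' ⟨h1, h2⟩ ⟨h3, h4⟩
    refine ⟨(MMs h).mul_mem h1 h3, fun ψ hψ => ?_⟩
    have h5 := N.mul_mem (hN φ h1 _ (h4 ψ hψ)) (h2 ψ hψ)
    have h6 : φ * (φ' * ψ * φ'⁻¹ * ψ⁻¹) * φ⁻¹ * (φ * ψ * φ⁻¹ * ψ⁻¹) =
        φ * φ' * ψ * (φ * φ')⁻¹ * ψ⁻¹ := by group
    rwa [h6] at h5
  inv_mem' := by
    rintro φ ⟨h1, h2⟩
    refine ⟨(MMs h).inv_mem h1, fun ψ hψ => ?_⟩
    have h5 := hN φ⁻¹ ((MMs h).inv_mem h1) _ (N.inv_mem (h2 ψ hψ))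
    have h6 : φ⁻¹ * (φ * ψ * φ⁻¹ * ψ⁻¹)⁻¹ * φ⁻¹⁻¹ = φ⁻¹ * ψ * φ⁻¹⁻¹ * ψ⁻¹ := by group
    rwa [h6] at h5

/-- The centraliser trick: if the pushes factor through the Heisenberg group modulo `N`, then an
automorphism of the first handles acting trivially on the Heisenberg group is central modulo
`N`. -/
theorem central_of_hs (N : Subgroup (MulAut G)) (hN : ∀ φ ∈ MMs h, ∀ x ∈ N, φ * x * φ⁻¹ ∈ N)
    (hI : ∀ x : G, MulAut.conj x ∈ N) (hK : ∀ y : Fr n, hs y = 1 → XX h y ∈ N)
    {f' : MulAut (Fr n)} {φ : MulAut G} (hp : Pair h f' φ) (hφ : φ ∈ MMs h)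
    (hf : ∀ y, hs (f' y) = hs y) : φ ∈ Zc h N hN := by
  have hcI : ∀ x, MulAut.conj x ∈ MMs h := fun x => Subgroup.subset_closure (Or.inl ⟨x, rfl⟩)
  let S : Subgroup (MulAut G) :=
    { carrier := {ψ | ψ ∈ MMs h ∧ ∀ (f' : MulAut (Fr n)) (φ : MulAut G), Pair h f' φ →
        φ ∈ MMs h → (∀ y, hs (f' y) = hs y) → φ * ψ * φ⁻¹ * ψ⁻¹ ∈ N}
      one_mem' := ⟨(MMs h).one_mem, fun f' φ _ _ _ => by
        rw [mul_one, mul_inv_cancel, inv_one, mul_one]; exact N.one_mem⟩
      mul_mem' := by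
        rintro ψ ψ' ⟨h1, h2⟩ ⟨h3, h4⟩
        refine ⟨(MMs h).mul_mem h1 h3, fun f' φ hp hφ hf => ?_⟩
        have h5 := N.mul_mem (h2 f' φ hp hφ hf) (hN ψ h1 _ (h4 f' φ hp hφ hf))
        have h6 : φ * ψ * φ⁻¹ * ψ⁻¹ * (ψ * (φ * ψ' * φ⁻¹ * ψ'⁻¹) * ψ⁻¹) =
            φ * (ψ * ψ') * φ⁻¹ * (ψ * ψ')⁻¹ := by group
        rwa [h6] at h5
      inv_mem' := by
        rintro ψ ⟨h1, h2⟩
        refine ⟨(MMs h).inv_mem h1, fun f' φ hp hφ hf => ?_⟩
        have h5 := hN ψ⁻¹ ((MMs h).inv_mem h1) _ (N.inv_mem (h2 f' φ hp hφ hf))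
        have h6 : ψ⁻¹ * (φ * ψ * φ⁻¹ * ψ⁻¹)⁻¹ * ψ⁻¹⁻¹ = φ * ψ⁻¹ * φ⁻¹ * ψ⁻¹⁻¹ := by group
        rwa [h6] at h5 }
  have hXS : ∀ y, XX h y ∈ S := by
    intro y
    refine ⟨MMs_eq_TW h ▸ XX_TW h y, fun f' φ hp hφ hf => ?_⟩
    rw [pair_exact h hp y (hf y), ← map_inv, ← map_mul]
    refine hK _ ?_
    rw [map_mul, map_inv, hf, mul_inv_cancel]
  have hle : MMs h ≤ S := by
    apply MMs_le' h
    · intro x
      refine ⟨hcI x, fun f' φ hp hφ hf => ?_⟩
      have h1 : φ * MulAut.conj x * φ⁻¹ = MulAut.conj (φ x) := by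
        ext y
        simp [MulAut.conj_apply]
      rw [h1]
      exact N.mul_mem (hI _) (N.inv_mem (hI x))
    · rintro t' t ht htM ψ ⟨h1, h2⟩
      refine ⟨(MMs h).mul_mem ((MMs h).mul_mem htM h1) ((MMs h).inv_mem htM),
        fun f' φ hp hφ hf => ?_⟩
      have h3 := h2 (t'⁻¹ * f' * t') (t⁻¹ * φ * t) ((ht.inv.mul hp).mul ht)
        ((MMs h).mul_mem ((MMs h).mul_mem ((MMs h).inv_mem htM) hφ) htM) (by
        intro y
        have h4 := Sym.hs_eq ((Sym n).inv_mem (pair_sym h ht htM)) (hf (t' y))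
        rw [MulAut.inv_apply_self] at h4
        exact h4)
      have h5 := hN t htM _ h3
      have h6 : t * (t⁻¹ * φ * t * ψ * (t⁻¹ * φ * t)⁻¹ * ψ⁻¹) * t⁻¹ =
          φ * (t * ψ * t⁻¹) * φ⁻¹ * (t * ψ * t⁻¹)⁻¹ := by group
      rwa [h6] at h5
    · intro j
      rw [← XX_b]
      exact hXS _
    · refine ⟨Subgroup.subset_closure (Or.inr (Or.inl ⟨_, rfl⟩)), fun f' φ hp hφ _ => ?_⟩
      have h2 : φ * TA h (Fin.last n) = TA h (Fin.last n) * φ :=
        (comm_TT h hp.fj hp.fa hp.fb).eq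
      rw [h2, mul_inv_cancel_right, mul_inv_cancel]
      exact N.one_mem
    · refine ⟨Subgroup.subset_closure (Or.inr (Or.inr (Or.inl ⟨_, rfl⟩))),
        fun f' φ hp hφ _ => ?_⟩
      rw [(comm_TBl h hp.fj hp.fa hp.fb).eq, mul_inv_cancel_right, mul_inv_cancel]
      exact N.one_mem
  exact ⟨hφ, fun ψ hψ => (hle hψ).2 f' φ hp hφ hf⟩

end

end Pool.Agent.H.MP_59b15d_al.H93C
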