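import Pool.Agent.H.MP_59b15d_al.h93c.Heis
import Pool.Agent.H.MP_59b15d_al.h62k.LemK

/-!
# Lemma K for the Heisenberg group

An automorphism of the free group of genus `g` that fixes the boundary word and is the inner
automorphism of `w` modulo the boundary word shifts the Heisenberg group by `(1 - g) om (w, ·)`.
-/

set_option autoImplicit false

namespace Pool.Agent.H.MP_59b15d_al.H93C

open Pool.Agent.H.MP_59b15d_al.SP
open Pool.MP_59b15d_al.H24T Pool.MP_59b15d_al.H76R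
open FreeGroup (of)

variable {g : ℕ}

lemma cl_eq_clr (x : Fr g) : Pool.MP_59b15d_al.H62K.cl x = clr x := by
  induction x using fr_induction with
  | h1 => rw [clr_one, Pool.MP_59b15d_al.H62K.cl_one]
  | ha i => rw [clr_a, Pool.MP_59b15d_al.H62K.cl_a]
  | hb i => rw [clr_b, Pool.MP_59b15d_al.H62K.cl_b]
  | hm x y hx hy => rw [clr_mul, Pool.MP_59b15d_al.H62K.cl_mul, hx, hy]
  | hi x hx => rw [clr_inv, Pool.MP_59b15d_al.H62K.cl_inv, hx]

/-- The boundary of the first `m` handles in the Heisenberg group. -/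
lemma hs_dl (m : ℕ) (hm : m ≤ g) : hs (dl m : Fr g) = Hs.z ^ (m : ℤ) := by
  induction m with
  | zero => rw [dl, map_one]; simp
  | succ m ih =>
    rw [dl_succ m hm, map_mul, ih (by omega), kk, map_mul, map_mul, map_mul, map_inv, map_inv,
      Hs.comm_eq, hs_a, hs_b]
    change Hs.z ^ (m : ℤ) * Hs.z ^ om (e _) (f _) = _
    rw [om_e_f, ← zpow_add]
    push_cast
    rfl

/-- **Lemma K.** -/
theorem lemK (hg : 2 ≤ g) (f : MulAut (Fr g)) (hf : f (dl g) = dl g) (w : Fr g)
    (hw : ∀ z, ∃ r ∈ Subgroup.normalClosure {dl (n := g) g}, f z = w * z * w⁻¹ * r) (z : Fr g) :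
    hs (f z) = hs z * Hs.z ^ ((1 - (g : ℤ)) * om (clr w) (clr z)) := by
  have hd : hs (dl g : Fr g) = Hs.z ^ (g : ℤ) := hs_dl g le_rfl
  have h1 := Pool.MP_59b15d_al.H62K.lemK hg f.toMonoidHom hf w (fun z => by
    obtain ⟨r, hr, h2⟩ := hw z
    change (w * z * w⁻¹)⁻¹ * f z ∈ _
    rw [h2, inv_mul_cancel_left]
    exact hr) hs (fun x => by
      rw [hd]
      exact (Hs.z_comm (hs x)).zpow_left _) z
  change hs (f z) = _ at h1
  rw [h1, hd, cl_eq_clr, cl_eq_clr, map_mul, map_mul, map_inv]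
  have h3 : hs w * hs z * (hs w)⁻¹ = hs z * Hs.z ^ om (clr w) (clr z) := by
    have h4 : hs w * hs z = Hs.z ^ om (clr w) (clr z) * (hs z * hs w) := Hs.mul_eq (hs w) (hs z)
    rw [h4, mul_assoc, mul_inv_cancel_right]
    exact ((Hs.z_comm (hs z)).zpow_left _).eq
  rw [h3, mul_assoc, ← zpow_mul, ← zpow_add]
  congr 2
  rw [om_swap (clr z) (clr w)]
  ring

end Pool.Agent.H.MP_59b15d_al.H93C
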