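/-
Lifts of automorphisms to the free group and their shift of the Heisenberg group.
-/
import Pool.Agent.H.MP_59b15d_al.h60g.Rl
import Pool.Agent.H.MP_59b15d_al.h93c.Cent
import Pool.Agent.H.MP_59b15d_al.h93c.LemK

set_option autoImplicit false

namespace Pool.Agent.H.MP_59b15d_al.H93C

open Pool.Agent.H.MP_59b15d_al.SP
open Pool.MP_59b15d_al.H24T Pool.MP_59b15d_al.H76R Pool.MP_59b15d_al.H73E
open Pool.MP_59b15d_al.H60G
open FreeGroup (of)

section

variable {m : ℕ} {G : Type*} [Group G] {a b : Fin m → G}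

/-- `F` is a product of twists of the free group which induces `φ` on the closed surface group. -/
structure Lf (a b : Fin m → G) (φ : MulAut G) (F : MulAut (Fr m)) : Prop where
  mem : F ∈ FT m
  ind : ∀ z, φ (qH a b z) = qH a b (F z)

theorem Lf.one (a b : Fin m → G) : Lf a b 1 1 := ⟨(FT m).one_mem, fun _ => rfl⟩

theorem Lf.mul {φ ψ : MulAut G} {F K : MulAut (Fr m)} (h1 : Lf a b φ F) (h2 : Lf a b ψ K) :
    Lf a b (φ * ψ) (F * K) :=
  ⟨(FT m).mul_mem h1.mem h2.mem,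
    fun z => by rw [MulAut.mul_apply, h2.ind, h1.ind, MulAut.mul_apply]⟩

theorem Lf.inv {φ : MulAut G} {F : MulAut (Fr m)} (h1 : Lf a b φ F) : Lf a b φ⁻¹ F⁻¹ := by
  refine ⟨(FT m).inv_mem h1.mem, fun z => ?_⟩
  have h3 := h1.ind (F⁻¹ z)
  rw [MulAut.apply_inv_self] at h3
  rw [← h3, MulAut.inv_apply_self]

theorem Lf.pow {φ : MulAut G} {F : MulAut (Fr m)} (h1 : Lf a b φ F) (k : ℕ) :
    Lf a b (φ ^ k) (F ^ k) := by
  induction k with
  | zero => rw [pow_zero, pow_zero]; exact Lf.one a b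
  | succ k ih => rw [pow_succ, pow_succ]; exact ih.mul h1

theorem Lf_TA (h : IsSurf a b) (i : Fin m) : Lf a b (TA h i) (FA i) := by
  obtain ⟨u, v, h'⟩ := exists_isSurf (g := m + 1) (G := SurfGroup (m + 1)) ⟨MulEquiv.refl _⟩
  exact ⟨Subgroup.subset_closure (Or.inl ⟨i, rfl⟩), (trip_TA h' h i).ind⟩

theorem Lf_TB (h : IsSurf a b) (i : Fin m) : Lf a b (TB h i) (FB i) := by
  obtain ⟨u, v, h'⟩ := exists_isSurf (g := m + 1) (G := SurfGroup (m + 1)) ⟨MulEquiv.refl _⟩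
  exact ⟨Subgroup.subset_closure (Or.inr (Or.inl ⟨i, rfl⟩)), (trip_TB h' h i).ind⟩

theorem Lf_TC (h : IsSurf a b) {i j : Fin m} (hij : (j : ℕ) = i + 1) :
    Lf a b (TC h i j hij) (FC i j (ne_of_hij hij)) := by
  obtain ⟨u, v, h'⟩ := exists_isSurf (g := m + 1) (G := SurfGroup (m + 1)) ⟨MulEquiv.refl _⟩
  exact ⟨Subgroup.subset_closure (Or.inr (Or.inr ⟨i, j, hij, rfl⟩)), (trip_TC h' h hij).ind⟩

theorem cls_qH (h : IsSurf a b) (z : Fr m) : cls h (qH a b z) = clr z := by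
  induction z using fr_induction with
  | h1 => rw [map_one, cls_one, clr_one]
  | ha k => rw [qH_a, cls_a, clr_a]
  | hb k => rw [qH_b, cls_b, clr_b]
  | hm x y hx hy => rw [map_mul, cls_mul, hx, hy, clr_mul]
  | hi x hx => rw [map_inv, cls_inv, hx, clr_inv]

theorem Lf.clr_eq (h : IsSurf a b) {φ : MulAut G} {F : MulAut (Fr m)} (hF : Lf a b φ F)
    (z : Fr m) : clr (F z) = H1 h φ (clr z) := by
  rw [← cls_qH h, ← cls_qH h, H1_cls, hF.ind]

theorem TW_le_MMs (h : IsSurf a b) : TW h ≤ MMs h := by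
  rw [TW, Subgroup.closure_le]
  rintro T (⟨i, rfl⟩ | ⟨i, rfl⟩ | ⟨i, j, hij, rfl⟩)
  · exact Subgroup.subset_closure (Or.inr (Or.inl ⟨_, rfl⟩))
  · exact Subgroup.subset_closure (Or.inr (Or.inr (Or.inl ⟨_, rfl⟩)))
  · exact Subgroup.subset_closure (Or.inr (Or.inr (Or.inr ⟨_, _, _, rfl⟩)))

theorem H1_om (h : IsSurf a b) {φ : MulAut G} (hφ : φ ∈ MMs h) (u v : V m) :
    om (H1 h φ u) (H1 h φ v) = om u v := by
  rw [← MCG_eq h] at hφ
  exact H1_mem_Sp h hφ u v

/-- Products of twists are symplectic. -/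
theorem FT_sym {F : MulAut (Fr m)} (hF : F ∈ FT m) : F ∈ Sym m := by
  obtain ⟨u, v, h⟩ := exists_isSurf (g := m) (G := SurfGroup m) ⟨MulEquiv.refl _⟩
  obtain ⟨φ, hφ, h1⟩ := FT_ind h F hF
  have h2 : Lf u v φ F := ⟨hF, h1⟩
  intro x y
  rw [h2.clr_eq h, h2.clr_eq h, H1_om h (TW_le_MMs h hφ)]

/-- `φ` shifts the Heisenberg group by `u`. -/
def TL (a b : Fin m → G) (φ : MulAut G) (u : V m) : Prop :=
  ∃ F, Lf a b φ F ∧ ∀ z, hs (F z) = hs z * Hs.z ^ om u (clr z)

theorem clr_of_hs {y z : Fr m} {k : ℤ} (h1 : hs y = hs z * Hs.z ^ k) : clr y = clr z := by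
  have h2 := congrArg Hs.v h1
  rw [Hs.mul_v, Hs.z_zpow] at h2
  rw [clr, clr, h2, add_zero]

theorem z_cancel {x : Hs m} {k l : ℤ} (h1 : x * Hs.z ^ k = x * Hs.z ^ l) : k = l := by
  have h2 := mul_left_cancel h1
  rw [Hs.z_zpow, Hs.z_zpow] at h2
  exact congrArg Hs.s h2

theorem TL.one (a b : Fin m → G) : TL a b 1 0 :=
  ⟨1, Lf.one a b, fun z => by rw [om_zero_left, zpow_zero, mul_one]; rfl⟩

theorem TL.mul {φ ψ : MulAut G} {u v : V m} (h1 : TL a b φ u) (h2 : TL a b ψ v) :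
    TL a b (φ * ψ) (u + v) := by
  obtain ⟨F, h3, h4⟩ := h1
  obtain ⟨K, h5, h6⟩ := h2
  refine ⟨F * K, h3.mul h5, fun z => ?_⟩
  rw [MulAut.mul_apply, h4, clr_of_hs (h6 z), h6, mul_assoc, ← zpow_add, om_add_left, add_comm]

theorem TL.inv {φ : MulAut G} {u : V m} (h1 : TL a b φ u) : TL a b φ⁻¹ (-u) := by
  obtain ⟨F, h3, h4⟩ := h1
  refine ⟨F⁻¹, h3.inv, fun z => ?_⟩
  have h5 := h4 (F⁻¹ z)
  rw [MulAut.apply_inv_self] at h5
  rw [om_neg_left, clr_of_hs h5, h5, mul_assoc, ← zpow_add, add_neg_cancel, zpow_zero, mul_one]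

/-- The shift is trivial on homology. -/
theorem TL.H1_eq (h : IsSurf a b) {φ : MulAut G} {u : V m} (h1 : TL a b φ u) : H1 h φ = 1 := by
  obtain ⟨F, h3, h4⟩ := h1
  have h5 : ∀ z : Fr m, H1 h φ (clr z) = clr z := fun z => by
    rw [← h3.clr_eq h, clr_of_hs (h4 z)]
  apply lin_ext
  · intro i
    have := h5 (of (Sum.inl i))
    rw [clr_a] at this
    exact this
  · intro i
    have := h5 (of (Sum.inr i))
    rw [clr_b] at this
    exact this

end

section

variable {n : ℕ} {G : Type*} [Group G] {a b : Fin (n + 1) → G}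

theorem exists_Lf (h : IsSurf a b) {φ : MulAut G} (hφ : φ ∈ MMs h) : ∃ F, Lf a b φ F := by
  rw [MMs_eq_TW] at hφ
  obtain ⟨F, h1, h2⟩ := TW_lift h φ hφ
  exact ⟨F, h1, h2⟩

/-- Equivariance of the shift. -/
theorem TL.conj (h : IsSurf a b) {φ ψ : MulAut G} {u : V (n + 1)} (h1 : TL a b φ u)
    (hψ : ψ ∈ MMs h) : TL a b (ψ * φ * ψ⁻¹) (H1 h ψ u) := by
  obtain ⟨F, h3, h4⟩ := h1
  obtain ⟨K, h5⟩ := exists_Lf h hψ
  obtain ⟨μ, h6, h7⟩ := Sym.exists_mu (FT_sym h5.mem)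
  refine ⟨K * F * K⁻¹, (h5.mul h3).mul h5.inv, fun z => ?_⟩
  have h8 : clr z = H1 h ψ (clr (K⁻¹ z)) := by
    rw [← h5.clr_eq h, MulAut.apply_inv_self]
  rw [MulAut.mul_apply, MulAut.mul_apply, h6, h4, map_mul, map_zpow, h7, ← h6,
    MulAut.apply_inv_self, h8, H1_om h hψ]

/-- A lift of the identity shifts by zero. -/
theorem Lf_one_hs (h : IsSurf a b) (hn : 1 ≤ n) {F : MulAut (Fr (n + 1))} (hF : Lf a b 1 F)
    (z : Fr (n + 1)) : hs (F z) = hs z := by
  have h1 := lemK (g := n + 1) (by omega) F (FT_dl F hF.mem) 1 (fun z => by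
    refine ⟨z⁻¹ * F z, qH_ker h ?_, by group⟩
    rw [map_mul, ← hF.ind, MulAut.one_apply, map_inv, inv_mul_cancel]) z
  rw [clr_one, om_zero_left, mul_zero, zpow_zero, mul_one] at h1
  exact h1

/-- All lifts shift by the same element. -/
theorem TL.all (h : IsSurf a b) (hn : 1 ≤ n) {φ : MulAut G} {u : V (n + 1)} (h1 : TL a b φ u)
    {F : MulAut (Fr (n + 1))} (hF : Lf a b φ F) (z : Fr (n + 1)) :
    hs (F z) = hs z * Hs.z ^ om u (clr z) := by
  obtain ⟨K, h3, h4⟩ := h1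
  have h5 : Lf a b 1 (K⁻¹ * F) := by
    have := h3.inv.mul hF
    rwa [inv_mul_cancel] at this
  have h6 := Lf_one_hs h hn h5 z
  have h7 : clr ((K⁻¹ * F) z) = clr z := by rw [clr, clr, h6]
  have h8 := h4 ((K⁻¹ * F) z)
  rw [h6, h7, MulAut.mul_apply, MulAut.apply_inv_self] at h8
  exact h8

theorem TL.unique (h : IsSurf a b) (hn : 1 ≤ n) {φ : MulAut G} {u v : V (n + 1)}
    (h1 : TL a b φ u) (h2 : TL a b φ v) : u = v := by
  obtain ⟨F, h3, h4⟩ := h1
  have h5 : ∀ z, om u (clr z) = om v (clr z) := fun z => by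
    have := TL.all h hn h2 h3 z
    rw [h4 z] at this
    exact z_cancel this
  funext i
  have h6 := h5 (of (Sum.inl i))
  have h7 := h5 (of (Sum.inr i))
  rw [clr_a, om_e, om_e] at h6
  rw [clr_b, om_f, om_f] at h7
  exact Prod.ext h7 (by omega)

/-- Every element acting trivially on homology has a shift. -/
theorem exists_TL (h : IsSurf a b) {φ : MulAut G} (hφ : φ ∈ MMs h) (h1 : H1 h φ = 1) :
    ∃ u, TL a b φ u := by
  obtain ⟨F, hF⟩ := exists_Lf h hφ
  have h2 : ∀ z, ∃ k : ℤ, hs (F z) = hs z * Hs.z ^ k := fun z => by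
    refine Hs.eq_mul_z ?_
    change clr (F z) = clr z
    rw [hF.clr_eq h, h1]
    rfl
  choose k hk using h2
  refine ⟨fun i => (k (of (Sum.inr i)), -k (of (Sum.inl i))), F, hF, fun z => ?_⟩
  set u : V (n + 1) := fun i => (k (of (Sum.inr i)), -k (of (Sum.inl i))) with hu
  induction z using fr_induction with
  | h1 => rw [map_one, map_one, clr_one, om_zero_right, zpow_zero, mul_one]
  | ha i => rw [hk, clr_a, om_e, hu, neg_neg]
  | hb i => rw [hk, clr_b, om_f]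
  | hm x y hx hy =>
    have h3 := ((Hs.z_comm (hs y)).zpow_left (om u (clr x))).eq
    rw [map_mul, map_mul, map_mul, hx, hy, clr_mul, om_add_right, zpow_add]
    calc hs x * Hs.z ^ om u (clr x) * (hs y * Hs.z ^ om u (clr y)) =
        hs x * (Hs.z ^ om u (clr x) * hs y) * Hs.z ^ om u (clr y) := by group
      _ = _ := by rw [h3]; group
  | hi x hx =>
    have h3 := ((Hs.z_comm (hs x)).zpow_left (om u (clr x))).inv_inv.eq
    rw [map_inv, map_inv, map_inv, hx, clr_inv, om_neg_right, zpow_neg, mul_inv_rev, h3]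

/-! ### The first handles -/

/-- The inclusion of the free group of the first `n` handles. -/
def io (n : ℕ) : Fr n →* Fr (n + 1) := FreeGroup.map (Sum.map Fin.castSucc Fin.castSucc)

lemma io_a (i : Fin n) : io n (of (Sum.inl i)) = of (Sum.inl i.castSucc) := by simp [io]
lemma io_b (i : Fin n) : io n (of (Sum.inr i)) = of (Sum.inr i.castSucc) := by simp [io]

lemma hs_io (y : Fr n) : (hs (io n y)).v = emb (hs y).v ∧ (hs (io n y)).s = (hs y).s := by
  have hco : ∀ v w : V n, co (emb v) (emb w) = co v w := by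
    intro v w
    rw [co, Fin.sum_univ_castSucc, co]
    simp only [emb_cs, emb_last]
    simp
  induction y using fr_induction with
  | h1 => rw [map_one, map_one, map_one]; exact ⟨(map_zero emb).symm, rfl⟩
  | ha i => rw [io_a, hs_a, hs_a]; exact ⟨(emb_e i).symm, rfl⟩
  | hb i => rw [io_b, hs_b, hs_b]; exact ⟨(emb_f i).symm, rfl⟩
  | hm x y hx hy =>
    rw [map_mul, map_mul, map_mul]
    rw [Hs.mul_v, Hs.mul_v, Hs.mul_s, Hs.mul_s, hx.1, hx.2, hy.1, hy.2, map_add, hco]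
    exact ⟨rfl, rfl⟩
  | hi x hx =>
    rw [map_inv, map_inv, map_inv]
    rw [Hs.inv_v, Hs.inv_v, Hs.inv_s, Hs.inv_s, hx.1, hx.2, map_neg, hco]
    exact ⟨rfl, rfl⟩

lemma clr_io (y : Fr n) : clr (io n y) = emb (clr y) := (hs_io y).1

/-- The elements of the mapping class group of the first `n` handles, with their lifts. -/
theorem exists_block (h : IsSurf a b) {φ : MulAut G} (hφ : φ ∈ MR h 0 n) :
    ∃ (f' : MulAut (Fr n)) (F : MulAut (Fr (n + 1))), Pair h f' φ ∧ Lf a b φ F ∧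
      (∀ y, F (io n y) = io n (f' y)) ∧ F (of (Sum.inl (Fin.last n))) = of (Sum.inl (Fin.last n)) ∧
      F (of (Sum.inr (Fin.last n))) = of (Sum.inr (Fin.last n)) := by
  have hcs : ∀ k : Fin (n + 1), (k : ℕ) < n → ∃ i : Fin n, k = i.castSucc :=
    fun k hk => ⟨⟨k, by omega⟩, rfl⟩
  have hon : ∀ (F : MulAut (Fr (n + 1))) (f' : MulAut (Fr n)),
      (∀ i, F (of (Sum.inl i.castSucc)) = io n (f' (of (Sum.inl i)))) →
      (∀ i, F (of (Sum.inr i.castSucc)) = io n (f' (of (Sum.inr i)))) →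
      ∀ y, F (io n y) = io n (f' y) := by
    intro F f' h1 h2 y
    have h3 : F.toMonoidHom.comp (io n) = (io n).comp f'.toMonoidHom := by
      refine fr_ext (fun i => ?_) (fun i => ?_)
      · change F (io n (of (Sum.inl i))) = io n (f' (of (Sum.inl i)))
        rw [io_a, h1]
      · change F (io n (of (Sum.inr i))) = io n (f' (of (Sum.inr i)))
        rw [io_b, h2]
    exact DFunLike.congr_fun h3 y
  refine Subgroup.closure_induction (p := fun φ _ => ∃ (f' : MulAut (Fr n))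
      (F : MulAut (Fr (n + 1))), Pair h f' φ ∧ Lf a b φ F ∧
      (∀ y, F (io n y) = io n (f' y)) ∧ F (of (Sum.inl (Fin.last n))) = of (Sum.inl (Fin.last n)) ∧
      F (of (Sum.inr (Fin.last n))) = of (Sum.inr (Fin.last n))) ?_ ?_ ?_ ?_ hφ
  · rintro T (⟨i, _, hi, rfl⟩ | ⟨i, _, hi, rfl⟩ | ⟨i, j, hij, _, hj, rfl⟩)
    · obtain ⟨i, rfl⟩ := hcs i hi
      refine ⟨_, _, pair_TA h i, Lf_TA h _, hon _ _ (fun k => ?_) (fun k => ?_), ?_, ?_⟩
      · rw [FA_ne _ (by simp), FA_ne _ (by simp), io_a]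
      · by_cases hk : k = i
        · subst hk
          rw [FA_self, FA_self, map_mul, io_a, io_b]
        · rw [FA_ne _ (by simp [hk]), FA_ne _ (by simp [hk]), io_b]
      · rw [FA_ne _ (by simp)]
      · rw [FA_ne _ (by simpa using last_ne_cs i)]
    · obtain ⟨i, rfl⟩ := hcs i hi
      refine ⟨_, _, pair_TB h i, Lf_TB h _, hon _ _ (fun k => ?_) (fun k => ?_), ?_, ?_⟩
      · by_cases hk : k = i
        · subst hk
          rw [FB_self, FB_self, map_mul, io_a, io_b]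
        · rw [FB_ne _ (by simp [hk]), FB_ne _ (by simp [hk]), io_a]
      · rw [FB_ne _ (by simp), FB_ne _ (by simp), io_b]
      · rw [FB_ne _ (by simpa using last_ne_cs i)]
      · rw [FB_ne _ (by simp)]
    · obtain ⟨j, rfl⟩ := hcs j hj
      obtain ⟨i, rfl⟩ := hcs i (by omega)
      have hij' : (j : ℕ) = i + 1 := hij
      have hne := ne_of_hij hij'
      have hne' := ne_of_hij hij
      refine ⟨_, _, pair_TC h hij', Lf_TC h hij, hon _ _ (fun k => ?_) (fun k => ?_), ?_, ?_⟩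
      · by_cases hk : k = i
        · subst hk
          rw [FC_ai, FC_ai, map_mul, map_mul, map_inv, io_a, io_a, io_b]
        · by_cases hk2 : k = j
          · subst hk2
            rw [FC_aj, FC_aj]
            simp only [map_mul, map_inv, io_a, io_b]
          · rw [FC_a_ne _ _ _ (cs_ne hk) (cs_ne hk2), FC_a_ne _ _ _ hk hk2, io_a]
      · by_cases hk : k = i
        · subst hk
          rw [FC_bi, FC_bi]
          simp only [map_mul, map_inv, io_a, io_b]
        · by_cases hk2 : k = j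
          · subst hk2
            rw [FC_bj, FC_bj]
            simp only [map_mul, map_inv, io_a, io_b]
          · rw [FC_b_ne _ _ _ (cs_ne hk) (cs_ne hk2), FC_b_ne _ _ _ hk hk2, io_b]
      · exact FC_a_ne _ _ _ (last_ne_cs i) (last_ne_cs j)
      · exact FC_b_ne _ _ _ (last_ne_cs i) (last_ne_cs j)
  · exact ⟨1, 1, Pair.one h, Lf.one a b, fun _ => rfl, rfl, rfl⟩
  · rintro s t _ _ ⟨s', S, s1, s2, s3, s4, s5⟩ ⟨t', T, t1, t2, t3, t4, t5⟩
    refine ⟨s' * t', S * T, s1.mul t1, s2.mul t2, fun y => ?_, ?_, ?_⟩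
    · rw [MulAut.mul_apply, t3, s3, MulAut.mul_apply]
    · rw [MulAut.mul_apply, t4, s4]
    · rw [MulAut.mul_apply, t5, s5]
  · rintro s _ ⟨s', S, s1, s2, s3, s4, s5⟩
    refine ⟨s'⁻¹, S⁻¹, s1.inv, s2.inv, fun y => ?_, ?_, ?_⟩
    · have h1 := s3 (s'⁻¹ y)
      rw [MulAut.apply_inv_self] at h1
      rw [← h1, MulAut.inv_apply_self]
    · conv_lhs => rw [← s4]
      rw [MulAut.inv_apply_self]
    · conv_lhs => rw [← s5]
      rw [MulAut.inv_apply_self]

/-- The shift of an element supported on the first `n` handles. -/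
theorem block_shift (h : IsSurf a b) (hn : 1 ≤ n) {φ : MulAut G} (hφ : φ ∈ MR h 0 n)
    {u : V (n + 1)} (hu : TL a b φ u) : u (Fin.last n) = 0 ∧
    ∃ f' : MulAut (Fr n), Pair h f' φ ∧ ∀ y, hs (f' y) = hs y * Hs.z ^ om u (emb (clr y)) := by
  obtain ⟨f', F, h1, h2, h3, h4, h5⟩ := exists_block h hφ
  have h6 := hu.all h hn h2
  constructor
  · have h7 := h6 (of (Sum.inl (Fin.last n)))
    have h8 := h6 (of (Sum.inr (Fin.last n)))
    rw [h4, clr_a, om_e] at h7
    rw [h5, clr_b, om_f] at h8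
    have h9 : (0 : ℤ) = -(u (Fin.last n)).2 := z_cancel (x := hs (of (Sum.inl (Fin.last n))))
      (by rw [zpow_zero, mul_one]; exact h7)
    have h10 : (0 : ℤ) = (u (Fin.last n)).1 := z_cancel (x := hs (of (Sum.inr (Fin.last n))))
      (by rw [zpow_zero, mul_one]; exact h8)
    exact Prod.ext h10.symm (by rw [Prod.snd_zero]; omega)
  · refine ⟨f', h1, fun y => ?_⟩
    have h7 := h6 (io n y)
    rw [h3, clr_io] at h7
    have h8 := congrArg Hs.v h7
    have h9 := congrArg Hs.s h7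
    rw [Hs.z_zpow, Hs.mul_v, (hs_io _).1, (hs_io _).1, add_zero] at h8
    rw [Hs.z_zpow, Hs.mul_s, (hs_io _).2, (hs_io _).2, co_zero_right, sub_zero] at h9
    have h10 := emb_inj h8
    rw [Hs.z_zpow]
    have h11 : ∀ {x y : Hs n}, x.v = y.v → x.s = y.s → x = y := by
      rintro ⟨_, _⟩ ⟨_, _⟩ rfl rfl
      rfl
    refine h11 ?_ ?_
    · rw [Hs.mul_v, add_zero, h10]
    · rw [Hs.mul_s, co_zero_right, sub_zero, h9]

/-- Elements of the first handles with trivial shift are central modulo `N`. -/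
theorem block_central (h : IsSurf a b) (hn : 1 ≤ n) (N : Subgroup (MulAut G))
    (hN : ∀ φ ∈ MMs h, ∀ x ∈ N, φ * x * φ⁻¹ ∈ N) (hI : ∀ x : G, MulAut.conj x ∈ N)
    (hK : ∀ y : Fr n, hs y = 1 → XX h y ∈ N) {φ : MulAut G} (hφ : φ ∈ MR h 0 n)
    (hu : TL a b φ 0) : φ ∈ Zc h N hN := by
  obtain ⟨-, f', h1, h2⟩ := block_shift h hn hφ hu
  refine central_of_hs h N hN hI hK h1 ?_ (fun y => ?_)
  · exact MR_le h (fun i _ _ => Subgroup.subset_closure (Or.inr (Or.inl ⟨_, rfl⟩)))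
      (fun i _ _ => Subgroup.subset_closure (Or.inr (Or.inr (Or.inl ⟨_, rfl⟩))))
      (fun i j hij _ _ => Subgroup.subset_closure (Or.inr (Or.inr (Or.inr ⟨_, _, _, rfl⟩)))) hφ
  · rw [h2, om_zero_left, zpow_zero, mul_one]

end

end Pool.Agent.H.MP_59b15d_al.H93C
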