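/-
Bounding pair maps realise all basis classes as shifts.
-/
import Pool.Agent.H.MP_59b15d_al.h93c.TL
import Pool.Agent.H.MP_59b15d_al.h93c.BP

set_option autoImplicit false

namespace Pool.Agent.H.MP_59b15d_al.H93C

open Pool.Agent.H.MP_59b15d_al.SP
open Pool.MP_59b15d_al.H24T Pool.MP_59b15d_al.H76R Pool.MP_59b15d_al.H73E
open Pool.MP_59b15d_al.H60G
open FreeGroup (of)

variable {n : ℕ} {G : Type*} [Group G] {a b : Fin (n + 1) → G}

/-- Every basis class of two adjacent handles is the shift of an element supported there. -/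
theorem exists_bp (h : IsSurf a b) {i j : Fin (n + 1)} (hij : (j : ℕ) = i + 1) (s : V (n + 1))
    (hs' : s = e i ∨ s = f i ∨ s = e j ∨ s = f j) : ∃ φ ∈ MR h i (j + 1), TL a b φ s := by
  have mA : TA h i ∈ MR h i (j + 1) := TA_mem h i (le_refl _) (by omega)
  have mB : TB h i ∈ MR h i (j + 1) := TB_mem h i (le_refl _) (by omega)
  have mA' : TA h j ∈ MR h i (j + 1) := TA_mem h j (by omega) (by omega)
  have mB' : TB h j ∈ MR h i (j + 1) := TB_mem h j (by omega) (by omega)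
  have mC : TC h i j hij ∈ MR h i (j + 1) := TC_mem h i j hij (le_refl _) (by omega)
  have nA : TA h i ∈ MMs h := Subgroup.subset_closure (Or.inr (Or.inl ⟨_, rfl⟩))
  have nB : TB h j ∈ MMs h := Subgroup.subset_closure (Or.inr (Or.inr (Or.inl ⟨_, rfl⟩)))
  have hA : H1 h (TA h i) (f i) = f i + e i := by
    rw [H1_A h ((isA_iff h i _).2 rfl)]
    rw [T_apply, om_f_e]
    module
  have hB : H1 h (TB h j) (e j) = e j + f j := by
    rw [H1_B h ((isB_iff h j _).2 rfl)]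
    rw [T_apply, om_e_f]
    module
  obtain ⟨φ, hφ, h1⟩ : ∃ φ ∈ MR h i (j + 1), TL a b φ (-e j) := by
    refine ⟨(TB h i * (TA h i)⁻¹ * TC h i j hij) ^ 4 * TA h j ^ 2, ?_, BPa i j (ne_of_hij hij), ?_,
      hs_BPa i j (ne_of_hij hij)⟩
    · exact mul_mem (pow_mem (mul_mem (mul_mem mB (inv_mem mA)) mC) 4) (pow_mem mA' 2)
    · exact ((((Lf_TB h i).mul (Lf_TA h i).inv).mul (Lf_TC h hij)).pow 4).mul ((Lf_TA h j).pow 2)
  obtain ⟨ψ, hψ, h2⟩ : ∃ ψ ∈ MR h i (j + 1), TL a b ψ (f i) := by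
    refine ⟨((TA h j)⁻¹ * TB h j * TC h i j hij) ^ 4 * (TB h i ^ 2)⁻¹, ?_,
      BPb i j (ne_of_hij hij), ?_, hs_BPb i j (ne_of_hij hij)⟩
    · exact mul_mem (pow_mem (mul_mem (mul_mem (inv_mem mA') mB') mC) 4) (inv_mem (pow_mem mB 2))
    · exact ((((Lf_TA h j).inv.mul (Lf_TB h j)).mul (Lf_TC h hij)).pow 4).mul
        ((Lf_TB h i).pow 2).inv
  have h3 : TL a b φ⁻¹ (e j) := by
    have := h1.inv
    rwa [neg_neg] at this
  rcases hs' with rfl | rfl | rfl | rfl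
  · refine ⟨TA h i * ψ * (TA h i)⁻¹ * ψ⁻¹, mul_mem (mul_mem (mul_mem mA hψ) (inv_mem mA))
      (inv_mem hψ), ?_⟩
    have h4 := (h2.conj h nA).mul h2.inv
    rw [hA] at h4
    have h5 : (f i + e i + -f i : V (n + 1)) = e i := by abel
    rwa [h5] at h4
  · exact ⟨ψ, hψ, h2⟩
  · exact ⟨φ⁻¹, inv_mem hφ, h3⟩
  · refine ⟨TB h j * φ⁻¹ * (TB h j)⁻¹ * φ, mul_mem (mul_mem (mul_mem mB' (inv_mem hφ))
      (inv_mem mB')) hφ, ?_⟩
    have h4 := (h3.conj h nB).mul h1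
    rw [hB] at h4
    have h5 : (e j + f j + -e j : V (n + 1)) = f j := by abel
    rwa [h5] at h4

end Pool.Agent.H.MP_59b15d_al.H93C
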