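/-
Gluing the two blocks: the shift determines the class modulo `Z`.
-/
import Pool.Agent.H.MP_59b15d_al.h93c.TL
import Pool.Agent.H.MP_59b15d_al.h95g.Rec

set_option autoImplicit false

namespace Pool.Agent.H.MP_59b15d_al.H93C

open Pool.Agent.H.MP_59b15d_al.SP
open Pool.MP_59b15d_al.H24T Pool.MP_59b15d_al.H76R Pool.MP_59b15d_al.H73E
open Pool.MP_59b15d_al.H60G
open FreeGroup (of)

section span

variable {m : ℕ}

/-- A subgroup containing the basis is everything; version with support. -/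
lemma V_mem {S : AddSubgroup (V m)} {u : V m}
    (h : ∀ i, u i ≠ 0 → e i ∈ S ∧ f i ∈ S) : u ∈ S := by
  rw [expand u]
  refine AddSubgroup.sum_mem _ fun i _ => ?_
  by_cases hi : u i = 0
  · rw [hi]
    simp only [Prod.fst_zero, Prod.snd_zero, zero_smul, add_zero]
    exact S.zero_mem
  · obtain ⟨h1, h2⟩ := h i hi
    exact S.add_mem (S.zsmul_mem h1 _) (S.zsmul_mem h2 _)

end span

section

variable {n : ℕ} {G : Type*} [Group G] {a b : Fin (n + 1) → G}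

theorem MR_MMs' (h : IsSurf a b) (lo hi : ℕ) : MR h lo hi ≤ MMs h :=
  MR_le h (fun _ _ _ => Subgroup.subset_closure (Or.inr (Or.inl ⟨_, rfl⟩)))
    (fun _ _ _ => Subgroup.subset_closure (Or.inr (Or.inr (Or.inl ⟨_, rfl⟩))))
    (fun _ _ _ _ _ => Subgroup.subset_closure (Or.inr (Or.inr (Or.inr ⟨_, _, _, rfl⟩))))

/-- Lifts of elements supported on some handles. -/
theorem exists_Lf_fix (h : IsSurf a b) {lo hi : ℕ} {φ : MulAut G} (hφ : φ ∈ MR h lo hi) :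
    ∃ F, Lf a b φ F ∧ ∀ k : Fin (n + 1), ((k : ℕ) < lo ∨ hi ≤ (k : ℕ)) →
      F (of (Sum.inl k)) = of (Sum.inl k) ∧ F (of (Sum.inr k)) = of (Sum.inr k) := by
  refine Subgroup.closure_induction (p := fun φ _ => ∃ F, Lf a b φ F ∧
    ∀ k : Fin (n + 1), ((k : ℕ) < lo ∨ hi ≤ (k : ℕ)) →
      F (of (Sum.inl k)) = of (Sum.inl k) ∧ F (of (Sum.inr k)) = of (Sum.inr k)) ?_ ?_ ?_ ?_ hφ
  · rintro T (⟨i, h1, h2, rfl⟩ | ⟨i, h1, h2, rfl⟩ | ⟨i, j, hij, h1, h2, rfl⟩)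
    · refine ⟨_, Lf_TA h i, fun k hk => ⟨FA_ne _ (by simp), FA_ne _ ?_⟩⟩
      intro h3
      have h4 : k = i := Sum.inr_injective h3
      subst h4
      omega
    · refine ⟨_, Lf_TB h i, fun k hk => ⟨FB_ne _ ?_, FB_ne _ (by simp)⟩⟩
      intro h3
      have h4 : k = i := Sum.inl_injective h3
      subst h4
      omega
    · have hk1 : ∀ k : Fin (n + 1), ((k : ℕ) < lo ∨ hi ≤ (k : ℕ)) → k ≠ i := by
        rintro k hk rfl
        omega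
      have hk2 : ∀ k : Fin (n + 1), ((k : ℕ) < lo ∨ hi ≤ (k : ℕ)) → k ≠ j := by
        rintro k hk rfl
        omega
      exact ⟨_, Lf_TC h hij, fun k hk => ⟨FC_a_ne _ _ _ (hk1 k hk) (hk2 k hk),
        FC_b_ne _ _ _ (hk1 k hk) (hk2 k hk)⟩⟩
  · exact ⟨1, Lf.one a b, fun _ _ => ⟨rfl, rfl⟩⟩
  · rintro s t _ _ ⟨S, s1, s2⟩ ⟨T, t1, t2⟩
    refine ⟨S * T, s1.mul t1, fun k hk => ⟨?_, ?_⟩⟩
    · rw [MulAut.mul_apply, (t2 k hk).1, (s2 k hk).1]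
    · rw [MulAut.mul_apply, (t2 k hk).2, (s2 k hk).2]
  · rintro s _ ⟨S, s1, s2⟩
    refine ⟨S⁻¹, s1.inv, fun k hk => ⟨?_, ?_⟩⟩
    · conv_lhs => rw [← (s2 k hk).1]
      rw [MulAut.inv_apply_self]
    · conv_lhs => rw [← (s2 k hk).2]
      rw [MulAut.inv_apply_self]

/-- The shift of an element is supported on its handles. -/
theorem shift_supp (h : IsSurf a b) (hn : 1 ≤ n) {lo hi : ℕ} {φ : MulAut G}
    (hφ : φ ∈ MR h lo hi) {u : V (n + 1)} (hu : TL a b φ u) (k : Fin (n + 1))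
    (hk : (k : ℕ) < lo ∨ hi ≤ (k : ℕ)) : u k = 0 := by
  obtain ⟨F, h1, h2⟩ := exists_Lf_fix h hφ
  have h6 := hu.all h hn h1
  obtain ⟨h4, h5⟩ := h2 k hk
  have h7 := h6 (of (Sum.inl k))
  have h8 := h6 (of (Sum.inr k))
  rw [h4, clr_a, om_e] at h7
  rw [h5, clr_b, om_f] at h8
  have h9 : (0 : ℤ) = -(u k).2 := z_cancel (x := hs (of (Sum.inl k)))
    (by rw [zpow_zero, mul_one]; exact h7)
  have h10 : (0 : ℤ) = (u k).1 := z_cancel (x := hs (of (Sum.inr k)))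
    (by rw [zpow_zero, mul_one]; exact h8)
  exact Prod.ext h10.symm (by rw [Prod.snd_zero]; omega)

/-- Elements supported on disjoint intervals of handles commute. -/
theorem MR_comm' (h : IsSurf a b) {x y : MulAut G} {k : ℕ} (hk : k ≤ n + 1) (hx : x ∈ MR h 0 k)
    (hy : y ∈ MR h k (n + 1)) : y * x = x * y := by
  ext z
  exact Pool.MP_59b15d_al.H95G.MR_comm h hk hy hx z

/-- Good representatives of the basis elements. -/
theorem exists_rep (h : IsSurf a b) (hn : 3 ≤ n)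
    (hbp : ∀ (i j : Fin (n + 1)) (_ : (j : ℕ) = i + 1) (s : V (n + 1)),
      (s = e i ∨ s = f i ∨ s = e j ∨ s = f j) → ∃ φ ∈ MR h i (j + 1), TL a b φ s)
    (i : Fin (n + 1)) (s : V (n + 1)) (hs : s = e i ∨ s = f i) :
    ∃ φ, TL a b φ s ∧ ((i : ℕ) < n → φ ∈ MR h 0 n) ∧ (1 ≤ (i : ℕ) → φ ∈ MR h 1 (n + 1)) ∧
      ((i : ℕ) = 0 → φ ∈ MR h 0 2) ∧ ((i : ℕ) = n → φ ∈ MR h 2 (n + 1)) := by
  by_cases hi : (i : ℕ) + 1 < n
  · obtain ⟨φ, h1, h2⟩ := hbp i ⟨i + 1, by omega⟩ rfl s (by tauto)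
    simp only at h1
    exact ⟨φ, h2, fun _ => MR_mono h (by omega) (by omega) h1,
      fun _ => MR_mono h (by omega) (by omega) h1, fun h3 => MR_mono h (by omega) (by omega) h1,
      fun h3 => absurd h3 (by omega)⟩
  · have hi' := i.2
    have hij : (i : ℕ) = (⟨i - 1, by omega⟩ : Fin (n + 1)) + 1 := by
      simp only
      omega
    obtain ⟨φ, h1, h2⟩ := hbp ⟨i - 1, by omega⟩ i hij s (by tauto)
    simp only at h1
    exact ⟨φ, h2, fun _ => MR_mono h (by omega) (by omega) h1,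
      fun _ => MR_mono h (by omega) (by omega) h1, fun h3 => absurd h3 (by omega),
      fun h3 => MR_mono h (by omega) (by omega) h1⟩

/-- **Gluing.** -/
theorem glue (h : IsSurf a b) (hn : 4 ≤ n) (Z : Subgroup (MulAut G))
    (hZ : ∀ ψ ∈ MMs h, ∀ x ∈ Z, ψ * x * ψ⁻¹ ∈ Z)
    (hB : ∀ φ ∈ MR h 0 n, TL a b φ 0 → φ ∈ Z)
    (hrot : ∃ β ∈ MR h 0 (n + 1), ∀ φ ∈ MR h 1 (n + 1), β * φ * β⁻¹ ∈ MR h 0 n)
    (hbp : ∀ (i j : Fin (n + 1)) (_ : (j : ℕ) = i + 1) (s : V (n + 1)),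
      (s = e i ∨ s = f i ∨ s = e j ∨ s = f j) → ∃ φ ∈ MR h i (j + 1), TL a b φ s)
    (hG : ∀ K : Subgroup (MulAut G), (∀ ψ ∈ MMs h, ∀ x ∈ K, ψ * x * ψ⁻¹ ∈ K) →
      (∀ r ∈ MR h 0 n, H1 h r = 1 → r ∈ K) → ∀ φ ∈ MMs h, H1 h φ = 1 → φ ∈ K)
    (M : ℕ) (hM : ∀ φ ∈ MMs h, φ ^ M ∈ Z) {φ : MulAut G} (hφ : φ ∈ MMs h) {u : V (n + 1)}
    (hu : TL a b φ ((M : ℤ) • u)) : φ ∈ Z := by
  classical
  have hn1 : 1 ≤ n := by omega
  have hnZ : (Z.subgroupOf (MMs h)).Normal := ⟨fun x hx g => hZ g g.2 x hx⟩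
  set q : MMs h →* (MMs h) ⧸ Z.subgroupOf (MMs h) := QuotientGroup.mk' _ with hq
  have hq1 : ∀ x : MMs h, q x = 1 ↔ x.1 ∈ Z := fun x => by
    rw [hq, QuotientGroup.mk'_apply, QuotientGroup.eq_one_iff]
    exact Subgroup.mem_subgroupOf
  -- the two blocks
  have hB' : ∀ φ ∈ MR h 1 (n + 1), TL a b φ 0 → φ ∈ Z := by
    intro φ hφ hu
    obtain ⟨β, hβ, hβ2⟩ := hrot
    have hβM := MR_MMs' h _ _ hβ
    have h1 := hu.conj h hβM
    rw [map_zero] at h1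
    have h2 := hZ β⁻¹ ((MMs h).inv_mem hβM) _ (hB _ (hβ2 φ hφ) h1)
    have h3 : β⁻¹ * (β * φ * β⁻¹) * β⁻¹⁻¹ = φ := by group
    rwa [h3] at h2
  have heq : ∀ (B : Subgroup (MulAut G)), (∀ φ ∈ B, TL a b φ 0 → φ ∈ Z) → ∀ x y : MMs h,
      x.1 ∈ B → y.1 ∈ B → ∀ u, TL a b x.1 u → TL a b y.1 u → q x = q y := by
    intro B hB x y hx hy u h1 h2
    rw [← mul_inv_eq_one, ← map_inv, ← map_mul, hq1]
    refine hB _ (B.mul_mem hx (B.inv_mem hy)) ?_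
    have h3 := h1.mul h2.inv
    rwa [add_neg_cancel] at h3
  have hcm : ∀ (B : Subgroup (MulAut G)), (∀ φ ∈ B, TL a b φ 0 → φ ∈ Z) → ∀ x y : MMs h,
      x.1 ∈ B → y.1 ∈ B → ∀ u v, TL a b x.1 u → TL a b y.1 v → Commute (q x) (q y) := by
    intro B hB x y hx hy u v h1 h2
    change q x * q y = q y * q x
    rw [← map_mul, ← map_mul]
    have h3 := h2.mul h1
    rw [add_comm v u] at h3
    exact heq B hB _ _ (B.mul_mem hx hy) (B.mul_mem hy hx) _ (h1.mul h2) h3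
  -- the representatives
  have hrep : ∀ (i : Fin (n + 1)) (s : V (n + 1)), (s = e i ∨ s = f i) →
      ∃ x : MMs h, TL a b x.1 s ∧ ((i : ℕ) < n → x.1 ∈ MR h 0 n) ∧
        (1 ≤ (i : ℕ) → x.1 ∈ MR h 1 (n + 1)) ∧ ((i : ℕ) = 0 → x.1 ∈ MR h 0 2) ∧
        ((i : ℕ) = n → x.1 ∈ MR h 2 (n + 1)) := by
    intro i s hs
    obtain ⟨φ, h1, h2, h3, h4, h5⟩ := exists_rep h (by omega) hbp i s hs
    by_cases hi : (i : ℕ) < n
    · exact ⟨⟨φ, MR_MMs' h _ _ (h2 hi)⟩, h1, h2, h3, h4, h5⟩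
    · exact ⟨⟨φ, MR_MMs' h _ _ (h3 (by omega))⟩, h1, h2, h3, h4, h5⟩
  choose RA ra1 ra2 ra3 ra4 ra5 using fun i => hrep i (e i) (Or.inl rfl)
  choose RB rb1 rb2 rb3 rb4 rb5 using fun i => hrep i (f i) (Or.inr rfl)
  -- elements with representatives in good position commute
  have hcomm : ∀ (x y : MMs h) (i j : Fin (n + 1)) (u v : V (n + 1)), TL a b x.1 u →
      TL a b y.1 v → ((i : ℕ) < n → x.1 ∈ MR h 0 n) → (1 ≤ (i : ℕ) → x.1 ∈ MR h 1 (n + 1)) →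
      ((i : ℕ) = 0 → x.1 ∈ MR h 0 2) → ((i : ℕ) = n → x.1 ∈ MR h 2 (n + 1)) →
      ((j : ℕ) < n → y.1 ∈ MR h 0 n) → (1 ≤ (j : ℕ) → y.1 ∈ MR h 1 (n + 1)) →
      ((j : ℕ) = 0 → y.1 ∈ MR h 0 2) → ((j : ℕ) = n → y.1 ∈ MR h 2 (n + 1)) →
      Commute (q x) (q y) := by
    intro x y i j u v h1 h2 x1 x2 x3 x4 y1 y2 y3 y4
    have hi := i.2
    have hj := j.2
    by_cases hc1 : (i : ℕ) < n ∧ (j : ℕ) < n
    · exact hcm _ hB x y (x1 hc1.1) (y1 hc1.2) u v h1 h2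
    by_cases hc2 : 1 ≤ (i : ℕ) ∧ 1 ≤ (j : ℕ)
    · exact hcm _ hB' x y (x2 hc2.1) (y2 hc2.2) u v h1 h2
    by_cases hc3 : (i : ℕ) = 0
    · have h3 := MR_comm' h (by omega) (x3 hc3) (y4 (by omega))
      change q x * q y = q y * q x
      rw [← map_mul, ← map_mul]
      exact congrArg q (Subtype.ext h3.symm)
    · have h3 := MR_comm' h (by omega) (y3 (by omega)) (x4 (by omega))
      change q x * q y = q y * q x
      rw [← map_mul, ← map_mul]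
      exact congrArg q (Subtype.ext h3)
  have hR : HRel (fun i => q (RA i)) (fun i => q (RB i)) 1 :=
    { ca := fun i => Commute.one_left _
      cb := fun i => Commute.one_left _
      aa := fun i j _ => hcomm _ _ i j _ _ (ra1 i) (ra1 j) (ra2 i) (ra3 i) (ra4 i) (ra5 i) (ra2 j)
        (ra3 j) (ra4 j) (ra5 j)
      bb := fun i j _ => hcomm _ _ i j _ _ (rb1 i) (rb1 j) (rb2 i) (rb3 i) (rb4 i) (rb5 i) (rb2 j)
        (rb3 j) (rb4 j) (rb5 j)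
      ab := fun i j _ => hcomm _ _ i j _ _ (ra1 i) (rb1 j) (ra2 i) (ra3 i) (ra4 i) (ra5 i) (rb2 j)
        (rb3 j) (rb4 j) (rb5 j)
      rel := fun i => by
        have h1 := hcomm _ _ i i _ _ (ra1 i) (rb1 i) (ra2 i) (ra3 i) (ra4 i) (ra5 i) (rb2 i)
          (rb3 i) (rb4 i) (rb5 i)
        rw [h1.eq]
        group }
  obtain ⟨θ, hθa, hθb, hθz⟩ := Hs.lift hR
  -- the homomorphism `Y`
  obtain ⟨Y, hYadd, hYe, hYf⟩ : ∃ Y : V (n + 1) → (MMs h) ⧸ Z.subgroupOf (MMs h),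
      (∀ u v, Y (u + v) = Y u * Y v) ∧ (∀ i, Y (e i) = q (RA i)) ∧ ∀ i, Y (f i) = q (RB i) := by
    refine ⟨fun u => θ ⟨u, 0⟩, fun u v => ?_, hθa, hθb⟩
    have h1 : (⟨u, 0⟩ : Hs (n + 1)) * ⟨v, 0⟩ = ⟨u + v, 0⟩ * Hs.z ^ (-co u v) := by
      rw [Hs.z_zpow]
      change (⟨u + v, 0 + 0 - co u v⟩ : Hs (n + 1)) =
        ⟨u + v + 0, 0 + (-co u v) - co (u + v) 0⟩
      rw [co_zero_right, add_zero (u + v)]
      have e1 : (0 : ℤ) + 0 - co u v = 0 + (-co u v) - 0 := by ring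
      rw [e1]
    have h2 := congrArg θ h1
    rw [map_mul, map_mul, map_zpow, hθz, one_zpow, mul_one] at h2
    exact h2.symm
  have hY0 : Y 0 = 1 := by
    have h1 := hYadd 0 0
    rw [add_zero] at h1
    exact (mul_eq_left.mp h1.symm)
  have hYneg : ∀ u, Y (-u) = (Y u)⁻¹ := fun u => by
    have h1 := hYadd u (-u)
    rw [add_neg_cancel, hY0] at h1
    exact eq_inv_of_mul_eq_one_right h1.symm
  have hYsmul : ∀ (k : ℕ) u, Y ((k : ℤ) • u) = Y u ^ k := by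
    intro k u
    induction k with
    | zero => rw [Nat.cast_zero, zero_smul, hY0, pow_zero]
    | succ k ih =>
      rw [Nat.cast_succ, add_smul, one_smul, hYadd, ih, pow_succ]
  -- the classes in the two blocks
  have hblk : ∀ (B : Subgroup (MulAut G)) (lo hi : ℕ), (∀ φ ∈ B, TL a b φ 0 → φ ∈ Z) →
      B = MR h lo hi → (∀ i : Fin (n + 1), lo ≤ (i : ℕ) → (i : ℕ) < hi →
        (RA i).1 ∈ B ∧ (RB i).1 ∈ B) →
      ∀ x : MMs h, x.1 ∈ B → ∀ u, TL a b x.1 u → q x = Y u := by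
    intro B lo hi hB hBe hrB x hx u hu
    let S : AddSubgroup (V (n + 1)) :=
      { carrier := {u | ∃ x : MMs h, x.1 ∈ B ∧ TL a b x.1 u ∧ q x = Y u}
        zero_mem' := ⟨1, B.one_mem, TL.one a b, by rw [map_one, hY0]⟩
        add_mem' := by
          rintro u v ⟨x, x1, x2, x3⟩ ⟨y, y1, y2, y3⟩
          exact ⟨x * y, B.mul_mem x1 y1, x2.mul y2, by rw [map_mul, x3, y3, hYadd]⟩
        neg_mem' := by
          rintro u ⟨x, x1, x2, x3⟩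
          exact ⟨x⁻¹, B.inv_mem x1, x2.inv, by rw [map_inv, x3, hYneg]⟩ }
    have hS : u ∈ S := by
      refine V_mem fun i hi0 => ?_
      have hi1 : lo ≤ (i : ℕ) ∧ (i : ℕ) < hi := by
        by_contra hc
        exact hi0 (shift_supp h hn1 (hBe ▸ hx) hu i (by omega))
      obtain ⟨h1, h2⟩ := hrB i hi1.1 hi1.2
      exact ⟨⟨RA i, h1, ra1 i, (hYe i).symm⟩, ⟨RB i, h2, rb1 i, (hYf i).symm⟩⟩
    obtain ⟨y, y1, y2, y3⟩ := hS
    rw [← y3]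
    exact heq B hB x y hx y1 u hu y2
  have hD := hblk (MR h 0 n) 0 n hB rfl (fun i _ hi => ⟨ra2 i hi, rb2 i hi⟩)
  have hD' := hblk (MR h 1 (n + 1)) 1 (n + 1) hB' rfl (fun i hi _ => ⟨ra3 i hi, rb3 i hi⟩)
  -- equivariance
  let E : Subgroup (MulAut G) :=
    { carrier := {ψ | ∃ hψ : ψ ∈ MMs h, ∀ v, q ⟨ψ, hψ⟩ * Y v * (q ⟨ψ, hψ⟩)⁻¹ = Y (H1 h ψ v)}
      one_mem' := ⟨(MMs h).one_mem, fun v => by
        have h1 : q ⟨1, (MMs h).one_mem⟩ = 1 := map_one q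
        rw [h1, one_mul, inv_one, mul_one, map_one]
        rfl⟩
      mul_mem' := by
        rintro ψ ψ' ⟨h1, h2⟩ ⟨h3, h4⟩
        refine ⟨(MMs h).mul_mem h1 h3, fun v => ?_⟩
        have h5 : q ⟨ψ * ψ', (MMs h).mul_mem h1 h3⟩ = q ⟨ψ, h1⟩ * q ⟨ψ', h3⟩ := by
          rw [← map_mul]
          rfl
        have h6 : H1 h (ψ * ψ') v = H1 h ψ (H1 h ψ' v) := by
          rw [map_mul]
          rfl
        rw [h5, h6, ← h2, ← h4]
        group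
      inv_mem' := by
        rintro ψ ⟨h1, h2⟩
        refine ⟨(MMs h).inv_mem h1, fun v => ?_⟩
        have h5 : q ⟨ψ⁻¹, (MMs h).inv_mem h1⟩ = (q ⟨ψ, h1⟩)⁻¹ := by
          rw [← map_inv]
          rfl
        have h6 : H1 h ψ (H1 h ψ⁻¹ v) = v := by
          have h7 : H1 h ψ (H1 h ψ⁻¹ v) = H1 h (ψ * ψ⁻¹) v := by
            rw [map_mul (H1 h)]
            rfl
          rw [h7, mul_inv_cancel, map_one]
          rfl
        have h7 := h2 (H1 h ψ⁻¹ v)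
        rw [h6] at h7
        rw [h5, ← h7]
        group }
  have hgen : ∀ t : MulAut G, ∀ ht : t ∈ MMs h,
      ((t ∈ MR h 0 n ∧ t ∈ MR h 1 (n + 1)) ∨ (t ∈ MR h 0 n ∧ t ∈ MR h 0 2) ∨
        (t ∈ MR h 1 (n + 1) ∧ t ∈ MR h 2 (n + 1))) → t ∈ E := by
    intro t ht hc
    refine ⟨ht, fun v => ?_⟩
    have key : ∀ (i : Fin (n + 1)) (x : MMs h) (s : V (n + 1)), TL a b x.1 s → q x = Y s →
        ((i : ℕ) < n → x.1 ∈ MR h 0 n) → (1 ≤ (i : ℕ) → x.1 ∈ MR h 1 (n + 1)) →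
        ((i : ℕ) = 0 → x.1 ∈ MR h 0 2) → ((i : ℕ) = n → x.1 ∈ MR h 2 (n + 1)) →
        q ⟨t, ht⟩ * Y s * (q ⟨t, ht⟩)⁻¹ = Y (H1 h t s) := by
      intro i x s h1 h2 x1 x2 x3 x4
      have hi := i.2
      have h3 : q ⟨t, ht⟩ * Y s * (q ⟨t, ht⟩)⁻¹ = q (⟨t, ht⟩ * x * ⟨t, ht⟩⁻¹) := by
        rw [map_mul, map_mul, map_inv, h2]
      have h4 : TL a b ((⟨t, ht⟩ * x * ⟨t, ht⟩⁻¹ : MMs h) : MulAut G) (H1 h t s) :=
        h1.conj h ht
      have hin : ∀ B : Subgroup (MulAut G), t ∈ B → x.1 ∈ B →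
          ((⟨t, ht⟩ * x * ⟨t, ht⟩⁻¹ : MMs h) : MulAut G) ∈ B :=
        fun B k1 k2 => B.mul_mem (B.mul_mem k1 k2) (B.inv_mem k1)
      have hcom : t * x.1 = x.1 * t → q (⟨t, ht⟩ * x * ⟨t, ht⟩⁻¹) = Y (H1 h t s) := by
        intro h5
        have h6 : (⟨t, ht⟩ * x * ⟨t, ht⟩⁻¹ : MMs h) = x := by
          apply Subtype.ext
          change t * x.1 * t⁻¹ = x.1
          rw [h5, mul_inv_cancel_right]
        rw [h6] at h4
        rw [h6, h4.unique h hn1 h1, h2]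
      rw [h3]
      rcases hc with ⟨c1, c2⟩ | ⟨c1, c2⟩ | ⟨c1, c2⟩
      · by_cases hin' : (i : ℕ) < n
        · exact hD _ (hin _ c1 (x1 hin')) _ h4
        · exact hD' _ (hin _ c2 (x2 (by omega))) _ h4
      · by_cases hin' : (i : ℕ) < n
        · exact hD _ (hin _ c1 (x1 hin')) _ h4
        · exact hcom (MR_comm' h (by omega) c2 (x4 (by omega))).symm
      · by_cases hin' : 1 ≤ (i : ℕ)
        · exact hD' _ (hin _ c1 (x2 hin')) _ h4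
        · exact hcom (MR_comm' h (by omega) (x3 (by omega)) c2)
    let S : AddSubgroup (V (n + 1)) :=
      { carrier := {v | q ⟨t, ht⟩ * Y v * (q ⟨t, ht⟩)⁻¹ = Y (H1 h t v)}
        zero_mem' := by
          change q ⟨t, ht⟩ * Y 0 * (q ⟨t, ht⟩)⁻¹ = Y (H1 h t 0)
          rw [map_zero, hY0, mul_one, mul_inv_cancel]
        add_mem' := by
          intro v w h1 h2
          change q ⟨t, ht⟩ * Y (v + w) * (q ⟨t, ht⟩)⁻¹ = Y (H1 h t (v + w))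
          rw [map_add, hYadd, hYadd, ← h1, ← h2]
          group
        neg_mem' := by
          intro v h1
          change q ⟨t, ht⟩ * Y (-v) * (q ⟨t, ht⟩)⁻¹ = Y (H1 h t (-v))
          rw [map_neg, hYneg, hYneg, ← h1]
          group }
    have hS : v ∈ S := V_mem fun i _ =>
      ⟨key i (RA i) _ (ra1 i) (hYe i).symm (ra2 i) (ra3 i) (ra4 i) (ra5 i),
        key i (RB i) _ (rb1 i) (hYf i).symm (rb2 i) (rb3 i) (rb4 i) (rb5 i)⟩
    exact hS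
  have hE : MMs h ≤ E := by
    rw [MMs_eq_TW, TW, Subgroup.closure_le]
    have hcase : ∀ lo hi : ℕ, lo + 2 ≤ hi + 1 → hi ≤ n + 1 → hi ≤ lo + 2 → ∀ t ∈ MR h lo hi,
        t ∈ E := by
      intro lo hi h1 h2 h3 t ht
      refine hgen t (MR_MMs' h _ _ ht) ?_
      by_cases hlo : lo = 0
      · exact Or.inr (Or.inl ⟨MR_mono h (by omega) (by omega) ht,
          MR_mono h (by omega) (by omega) ht⟩)
      · by_cases hhi : hi ≤ n
        · exact Or.inl ⟨MR_mono h (by omega) (by omega) ht, MR_mono h (by omega) (by omega) ht⟩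
        · exact Or.inr (Or.inr ⟨MR_mono h (by omega) (by omega) ht,
            MR_mono h (by omega) (by omega) ht⟩)
    rintro T (⟨i, rfl⟩ | ⟨i, rfl⟩ | ⟨i, j, hij, rfl⟩)
    · exact hcase i (i + 1) (by omega) (by omega) (by omega) _ (TA_mem h i le_rfl (by omega))
    · exact hcase i (i + 1) (by omega) (by omega) (by omega) _ (TB_mem h i le_rfl (by omega))
    · have hj := j.2
      exact hcase i (i + 2) (by omega) (by omega) (by omega) _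
        (TC_mem h i j hij le_rfl (by omega))
  -- the good elements
  let J : Subgroup (MulAut G) :=
    { carrier := {ψ | ∃ hψ : ψ ∈ MMs h, ∃ u, TL a b ψ u ∧ q ⟨ψ, hψ⟩ = Y u}
      one_mem' := ⟨(MMs h).one_mem, 0, TL.one a b, by
        have h1 : q ⟨1, (MMs h).one_mem⟩ = 1 := map_one q
        rw [h1, hY0]⟩
      mul_mem' := by
        rintro ψ ψ' ⟨h1, u, h2, h3⟩ ⟨h4, v, h5, h6⟩
        refine ⟨(MMs h).mul_mem h1 h4, u + v, h2.mul h5, ?_⟩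
        have h7 : q ⟨ψ * ψ', (MMs h).mul_mem h1 h4⟩ = q ⟨ψ, h1⟩ * q ⟨ψ', h4⟩ := by
          rw [← map_mul]
          rfl
        rw [h7, h3, h6, hYadd]
      inv_mem' := by
        rintro ψ ⟨h1, u, h2, h3⟩
        refine ⟨(MMs h).inv_mem h1, -u, h2.inv, ?_⟩
        have h5 : q ⟨ψ⁻¹, (MMs h).inv_mem h1⟩ = (q ⟨ψ, h1⟩)⁻¹ := by
          rw [← map_inv]
          rfl
        rw [h5, h3, hYneg] }
  have hJ : φ ∈ J := by
    refine hG J ?_ ?_ φ hφ (hu.H1_eq h)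
    · rintro ψ hψ x ⟨h1, v, h2, h3⟩
      obtain ⟨h4, h5⟩ := hE hψ
      refine ⟨(MMs h).mul_mem ((MMs h).mul_mem h4 h1) ((MMs h).inv_mem h4), H1 h ψ v,
        h2.conj h hψ, ?_⟩
      have h7 : q ⟨ψ * x * ψ⁻¹, (MMs h).mul_mem ((MMs h).mul_mem h4 h1) ((MMs h).inv_mem h4)⟩ =
          q ⟨ψ, h4⟩ * q ⟨x, h1⟩ * (q ⟨ψ, h4⟩)⁻¹ := by
        rw [← map_inv, ← map_mul, ← map_mul]
        rfl
      rw [h7, h3, h5]
    · intro r hr hr1
      have h1 := MR_MMs' h _ _ hr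
      obtain ⟨v, hv⟩ := exists_TL h h1 hr1
      exact ⟨h1, v, hv, hD ⟨r, h1⟩ hr v hv⟩
  obtain ⟨h1, v, h2, h3⟩ := hJ
  rw [h2.unique h hn1 hu, hYsmul] at h3
  obtain ⟨y, hy⟩ := QuotientGroup.mk'_surjective (Z.subgroupOf (MMs h)) (Y u)
  have h4 : Y u ^ M = 1 := by
    rw [← hy, ← map_pow]
    exact (hq1 _).2 (hM y.1 y.2)
  rw [h4] at h3
  exact (hq1 _).1 h3

end

end Pool.Agent.H.MP_59b15d_al.H93C
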