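/-
The pushes factor through the Heisenberg group modulo `N`.
-/
import Pool.Agent.H.MP_59b15d_al.h73e.Lb
import Pool.Agent.H.MP_59b15d_al.h93c.Heis
import Pool.Agent.H.MP_59b15d_al.h95g.Out

set_option autoImplicit false

namespace Pool.Agent.H.MP_59b15d_al.H93C

open Pool.Agent.H.MP_59b15d_al.SP
open Pool.MP_59b15d_al.H24T Pool.MP_59b15d_al.H76R Pool.MP_59b15d_al.H73E
open Pool.MP_59b15d_al.H60G Pool.MP_59b15d_al.H95G
open FreeGroup (of)

variable {n : ℕ} {G : Type*} [Group G] {a b : Fin (n + 1) → G}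

/-- The three families of relations of the growth theorem. -/
structure Rels (h : IsSurf a b) (N : Subgroup (MulAut G)) : Prop where
  r1 : ∀ i j : Fin n, i ≠ j → ∀ x ∈ Hf n i, ∀ y ∈ Hf n j, XX h (x * y * x⁻¹ * y⁻¹) ∈ N
  r2 : ∀ i j : Fin n, XX h (cf i * (cf j)⁻¹) ∈ N
  r3 : ∀ (i : Fin n) (z : Fr n), XX h (cf i * z * (cf i)⁻¹ * z⁻¹) ∈ N

/-- The pushes factor through the Heisenberg group modulo `N`. -/
theorem XX_mem_of_hs (h : IsSurf a b) (hn : 1 ≤ n) (N : Subgroup (MulAut G))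
    (hN : ∀ φ ∈ MMs h, ∀ x ∈ N, φ * x * φ⁻¹ ∈ N) (hR : Rels h N) (y : Fr n) (hy : hs y = 1) :
    XX h y ∈ N := by
  have hXM : ∀ y, XX h y ∈ MMs h := fun y => MMs_eq_TW h ▸ XX_TW h y
  have hnm : (N.comap (XX h)).Normal := ⟨fun x hx g => by
    rw [Subgroup.mem_comap, map_mul, map_mul, map_inv]
    exact hN _ (hXM g) _ hx⟩
  let i0 : Fin n := ⟨0, hn⟩
  let π : Fr n →* Fr n ⧸ N.comap (XX h) := QuotientGroup.mk' _
  have hπ : ∀ x, XX h x ∈ N → π x = 1 := fun x hx => (QuotientGroup.eq_one_iff x).2 hx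
  have hcm : ∀ x y, XX h (x * y * x⁻¹ * y⁻¹) ∈ N → Commute (π x) (π y) := by
    intro x y hxy
    have h1 := hπ _ hxy
    simp only [map_mul, map_inv] at h1
    have h2 := mul_inv_eq_one.1 h1
    exact mul_inv_eq_iff_eq_mul.1 h2
  have h1 : π y = 1 := hs_ker (c := π (cf i0)) π
    { ca := fun i => hcm _ _ (hR.r3 i0 _)
      cb := fun i => hcm _ _ (hR.r3 i0 _)
      aa := fun i j hij => hcm _ _ (hR.r1 i j hij _ (Hf_a i) _ (Hf_a j))
      bb := fun i j hij => hcm _ _ (hR.r1 i j hij _ (Hf_b i) _ (Hf_b j))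
      ab := fun i j hij => hcm _ _ (hR.r1 i j hij _ (Hf_a i) _ (Hf_b j))
      rel := fun i => by
        have h2 := hπ _ (hR.r2 i i0)
        rw [map_mul, map_inv, mul_inv_eq_one] at h2
        rw [← h2, cf]
        simp only [map_mul, map_inv] } hy
  exact (QuotientGroup.eq_one_iff y).1 h1

end Pool.Agent.H.MP_59b15d_al.H93C
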