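/-
The end of the proof: elements with divisible shift are central modulo `N`.
-/
import Pool.Agent.H.MP_59b15d_al.h93c.Kern
import Pool.Agent.H.MP_59b15d_al.h93c.Glue
import Pool.Agent.H.MP_59b15d_al.h73g.Sh

set_option autoImplicit false

namespace Pool.Agent.H.MP_59b15d_al.H93C

open Pool.Agent.H.MP_59b15d_al.SP
open Pool.MP_59b15d_al.H24T Pool.MP_59b15d_al.H76R Pool.MP_59b15d_al.H73E
open Pool.MP_59b15d_al.H60G Pool.MP_59b15d_al.H95G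
open FreeGroup (of)

variable {n : ℕ} {G : Type*} [Group G] {a b : Fin (n + 1) → G}

theorem Zc_conj (h : IsSurf a b) (N : Subgroup (MulAut G))
    (hN : ∀ φ ∈ MMs h, ∀ x ∈ N, φ * x * φ⁻¹ ∈ N) :
    ∀ ψ ∈ MMs h, ∀ x ∈ Zc h N hN, ψ * x * ψ⁻¹ ∈ Zc h N hN := by
  rintro ψ hψ x ⟨h1, h2⟩
  refine ⟨(MMs h).mul_mem ((MMs h).mul_mem hψ h1) ((MMs h).inv_mem hψ), fun χ hχ => ?_⟩
  have h3 := hN ψ hψ _ (h2 (ψ⁻¹ * χ * ψ)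
    ((MMs h).mul_mem ((MMs h).mul_mem ((MMs h).inv_mem hψ) hχ) hψ))
  have h4 : ψ * (x * (ψ⁻¹ * χ * ψ) * x⁻¹ * (ψ⁻¹ * χ * ψ)⁻¹) * ψ⁻¹ =
      ψ * x * ψ⁻¹ * χ * (ψ * x * ψ⁻¹)⁻¹ * χ⁻¹ := by group
  rwa [h4] at h3

theorem mem_Zc (h : IsSurf a b) (N : Subgroup (MulAut G))
    (hN : ∀ φ ∈ MMs h, ∀ x ∈ N, φ * x * φ⁻¹ ∈ N) {x : MulAut G} (hx : x ∈ MMs h) (hxN : x ∈ N) :
    x ∈ Zc h N hN := by
  refine ⟨hx, fun ψ hψ => ?_⟩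
  have h1 := N.mul_mem hxN (hN ψ hψ _ (N.inv_mem hxN))
  have h2 : x * (ψ * x⁻¹ * ψ⁻¹) = x * ψ * x⁻¹ * ψ⁻¹ := by group
  rwa [h2] at h1

/-- A common exponent. -/
theorem exists_exp (h : IsSurf a b) (N : Subgroup (MulAut G))
    (hN : ∀ φ ∈ MMs h, ∀ x ∈ N, φ * x * φ⁻¹ ∈ N) (hf : N.relIndex (MMs h) ≠ 0) :
    ∃ M : ℕ, M ≠ 0 ∧ ∀ φ ∈ MMs h, φ ^ M ∈ N := by
  have hnm : (N.subgroupOf (MMs h)).Normal := ⟨fun x hx g => hN g g.2 x hx⟩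
  have hfi : (N.subgroupOf (MMs h)).FiniteIndex := ⟨hf⟩
  refine ⟨(N.subgroupOf (MMs h)).index, hf, fun φ hφ => ?_⟩
  have h1 := Subgroup.pow_index_mem (N.subgroupOf (MMs h)) ⟨φ, hφ⟩
  exact h1

/-- Elements of the mapping class group with divisible shift are central modulo `N`. -/
theorem central_of_TL (h : IsSurf a b) (hn : 4 ≤ n) (N : Subgroup (MulAut G))
    (hN : ∀ φ ∈ MMs h, ∀ x ∈ N, φ * x * φ⁻¹ ∈ N) (hI : ∀ x : G, MulAut.conj x ∈ N)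
    (hR : Rels h N)
    (hbp : ∀ (i j : Fin (n + 1)) (_ : (j : ℕ) = i + 1) (s : V (n + 1)),
      (s = e i ∨ s = f i ∨ s = e j ∨ s = f j) → ∃ φ ∈ MR h i (j + 1), TL a b φ s)
    (hG : ∀ K : Subgroup (MulAut G), (∀ ψ ∈ MMs h, ∀ x ∈ K, ψ * x * ψ⁻¹ ∈ K) →
      (∀ r ∈ MR h 0 n, H1 h r = 1 → r ∈ K) → ∀ φ ∈ MMs h, H1 h φ = 1 → φ ∈ K)
    (M : ℕ) (hM : ∀ φ ∈ MMs h, φ ^ M ∈ N) {φ : MulAut G} (hφ : φ ∈ MMs h) {u : V (n + 1)}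
    (hu : TL a b φ ((M : ℤ) • u)) : φ ∈ Zc h N hN :=
  glue h hn (Zc h N hN) (Zc_conj h N hN)
    (fun _ hφ hu => block_central h (by omega) N hN hI (XX_mem_of_hs h (by omega) N hN hR) hφ hu)
    (Pool.MP_59b15d_al.H73G.exists_rot h) hbp hG M
    (fun φ hφ => mem_Zc h N hN ((MMs h).pow_mem hφ M) (hM φ hφ)) hφ hu

end Pool.Agent.H.MP_59b15d_al.H93C
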