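import Pool.Agent.H.MP_59b15d_al.h93c.TL
import Pool.Agent.H.MP_59b15d_al.sp.End
import Pool.Agent.H.MP_59b15d_al.h73s.Cmp

/-!
# The last step: from shifts divisible by `M` to a congruence subgroup
-/

set_option autoImplicit false

namespace Pool.Agent.H.MP_59b15d_al.H93C

open Pool.Agent.H.MP_59b15d_al.SP
open Pool.MP_59b15d_al.H24T Pool.MP_59b15d_al.H76R Pool.MP_59b15d_al.H73E
open Pool.MP_59b15d_al.H60G
open Pool.MP_59b15d_al.H76 (InnMod exists_char_le comap_fi map_fi surf_fg)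
open FreeGroup (of)

section kd

variable {n : ℕ}

lemma co_smul_left (k : ℤ) (v w : V n) : co (k • v) w = k * co v w := by
  simp only [co, Finset.mul_sum, Pi.smul_apply, Prod.smul_snd, smul_eq_mul]
  exact Finset.sum_congr rfl fun i _ => by ring

lemma co_dvd {N : ℤ} {v : V n} (h : Dv N v) (w : V n) : N ∣ co v w := by
  obtain ⟨v', rfl⟩ := h
  exact ⟨_, co_smul_left N v' w⟩

/-- The level `N` subgroup of the Heisenberg group. -/
def KD (n : ℕ) (N : ℤ) : Subgroup (Hs n) where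
  carrier := {x | Dv N x.v ∧ N ∣ x.s}
  mul_mem' := by
    rintro x y ⟨h1, h2⟩ ⟨h3, h4⟩
    refine ⟨h1.add h3, ?_⟩
    rw [Hs.mul_s]
    exact dvd_sub (dvd_add h2 h4) (co_dvd h1 _)
  one_mem' := ⟨Dv.zero N, dvd_zero N⟩
  inv_mem' := by
    rintro x ⟨h1, h2⟩
    refine ⟨h1.neg, ?_⟩
    rw [Hs.inv_s]
    exact dvd_sub h2.neg_right (co_dvd h1 _)

lemma mem_KD {N : ℤ} {x : Hs n} : x ∈ KD n N ↔ Dv N x.v ∧ N ∣ x.s := Iff.rfl

lemma z_mem_KD {N t : ℤ} : (Hs.z : Hs n) ^ t ∈ KD n N ↔ N ∣ t := by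
  rw [Hs.z_zpow, mem_KD]
  exact ⟨fun h => h.2, fun h => ⟨Dv.zero N, h⟩⟩

lemma KD_conj {N : ℤ} {κ : Hs n} (h : κ ∈ KD n N) (x : Hs n) : x * κ * x⁻¹ ∈ KD n N := by
  have h1 : x * κ * x⁻¹ = Hs.z ^ om x.v κ.v * κ := by
    rw [← Hs.comm_eq]; group
  rw [h1]
  exact (KD n N).mul_mem (z_mem_KD.2 (h.1.om_right _)) h

lemma KD_conj' {N : ℤ} {κ : Hs n} (h : κ ∈ KD n N) (x : Hs n) : x⁻¹ * κ * x ∈ KD n N := by
  have := KD_conj h x⁻¹
  rwa [inv_inv] at this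

lemma pow_vs (x : Hs n) (k : ℕ) : (x ^ k).v = (k : ℤ) • x.v ∧
    2 * (x ^ k).s = 2 * k * x.s - k * (k - 1) * co x.v x.v := by
  induction k with
  | zero => exact ⟨by rw [pow_zero, Hs.one_v]; simp, by rw [pow_zero, Hs.one_s]; simp⟩
  | succ k ih =>
    rw [pow_succ, Hs.mul_v, Hs.mul_s, ih.1, co_smul_left]
    refine ⟨by push_cast; module, ?_⟩
    push_cast
    linear_combination ih.2

lemma pow_mem_KD (x : Hs n) (M : ℕ) : x ^ (2 * M) ∈ KD n M := by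
  obtain ⟨h1, h2⟩ := pow_vs x (2 * M)
  refine ⟨?_, ?_⟩
  · rw [h1]
    exact Dv.of_dvd (by push_cast; exact dvd_mul_left _ _) _
  · push_cast at h2
    refine ⟨2 * x.s - (2 * M - 1) * co x.v x.v, ?_⟩
    linarith

lemma mu_KD {μ : Hs n →* Hs n} (hμ : μ Hs.z = Hs.z) {M : ℕ} {κ : Hs n}
    (h : κ ∈ KD n (2 * M : ℤ)) : μ κ ∈ KD n M := by
  obtain ⟨⟨v', hv'⟩, hs'⟩ := h
  obtain ⟨h1, -⟩ := pow_vs (⟨v', 0⟩ : Hs n) (2 * M)
  have h2 : κ.v = ((⟨v', 0⟩ : Hs n) ^ (2 * M)).v := by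
    rw [h1, hv']; push_cast; rfl
  obtain ⟨t, ht⟩ := Hs.eq_mul_z h2
  have h3 := pow_mem_KD (⟨v', 0⟩ : Hs n) M
  have h4 : (M : ℤ) ∣ t := by
    have h5 := congrArg Hs.s ht
    rw [Hs.z_zpow, Hs.mul_s, co_zero_right, sub_zero] at h5
    have h6 : t = κ.s - ((⟨v', 0⟩ : Hs n) ^ (2 * M)).s := by
      rw [h5]; ring
    rw [h6]
    exact dvd_sub ((dvd_mul_left _ _).trans hs') h3.2
  rw [ht, map_mul, map_pow, map_zpow, hμ]
  exact (KD n M).mul_mem (pow_mem_KD _ M) (z_mem_KD.2 h4)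

lemma KD_le {N N' : ℤ} (h : N' ∣ N) : KD n N ≤ KD n N' := by
  rintro x ⟨⟨v', h1⟩, h2⟩
  obtain ⟨k, rfl⟩ := h
  exact ⟨⟨k • v', by rw [h1, smul_smul]⟩, (dvd_mul_right _ _).trans h2⟩

theorem KD_finiteIndex (N : ℕ) (hN : N ≠ 0) : (KD n (N : ℤ)).FiniteIndex := by
  have : NeZero N := ⟨hN⟩
  let q : Hs n → (Fin n → ZMod N × ZMod N) × ZMod N := fun x =>
    (fun i => (((x.v i).1 : ZMod N), ((x.v i).2 : ZMod N)), (x.s : ZMod N))
  have hq : ∀ x y : Hs n, q x = q y → x⁻¹ * y ∈ KD n (N : ℤ) := by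
    intro x y hxy
    have h1 := congrArg Prod.fst hxy
    have h2 : ((x.s : ZMod N)) = y.s := congrArg Prod.snd hxy
    have h3 : ∀ i, (N : ℤ) ∣ (y.v i).1 - (x.v i).1 ∧ (N : ℤ) ∣ (y.v i).2 - (x.v i).2 := by
      intro i
      have h4 := congrFun h1 i
      have h5 : (((x.v i).1 : ZMod N)) = (y.v i).1 := congrArg Prod.fst h4
      have h6 : (((x.v i).2 : ZMod N)) = (y.v i).2 := congrArg Prod.snd h4
      exact ⟨(ZMod.intCast_eq_intCast_iff_dvd_sub _ _ _).1 h5,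
        (ZMod.intCast_eq_intCast_iff_dvd_sub _ _ _).1 h6⟩
    have h4 : Dv (N : ℤ) (y.v - x.v) := by
      choose k l using h3
      choose k' hk using k
      choose l' hl using l
      refine ⟨fun i => (k' i, l' i), ?_⟩
      funext i
      exact Prod.ext (hk i) (hl i)
    have h5 : (N : ℤ) ∣ y.s - x.s := (ZMod.intCast_eq_intCast_iff_dvd_sub _ _ _).1 h2
    refine ⟨?_, ?_⟩
    · rw [Hs.mul_v, Hs.inv_v, neg_add_eq_sub]
      exact h4
    · rw [Hs.mul_s, Hs.inv_s, Hs.inv_v, co_neg_left]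
      have h6 : -x.s - co x.v x.v + y.s - -co x.v y.v = (y.s - x.s) + co x.v (y.v - x.v) := by
        rw [sub_eq_add_neg y.v, co_add_right, co_neg_right]; ring
      rw [h6]
      refine dvd_add h5 ?_
      obtain ⟨u, hu⟩ := h4
      rw [hu]
      refine ⟨co x.v u, ?_⟩
      simp only [co, Finset.mul_sum, Pi.smul_apply, Prod.smul_fst, smul_eq_mul]
      exact Finset.sum_congr rfl fun i _ => by ring
  have hfin : Finite (Hs n ⧸ KD n (N : ℤ)) := by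
    refine Finite.of_injective (fun c : Hs n ⧸ KD n (N : ℤ) => q c.out) ?_
    intro c d hcd
    have h1 := hq _ _ hcd
    rw [← QuotientGroup.out_eq' c, ← QuotientGroup.out_eq' d]
    exact QuotientGroup.eq.2 h1
  exact Subgroup.finiteIndex_of_finite_quotient

/-- `F` acts trivially modulo `N`. -/
def TrF (N : ℤ) (F : MulAut (Fr n)) : Prop := ∀ y, hs (F y) * (hs y)⁻¹ ∈ KD n N

lemma TrF.one (N : ℤ) : TrF N (1 : MulAut (Fr n)) := fun y => by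
  rw [MulAut.one_apply, mul_inv_cancel]
  exact (KD n N).one_mem

lemma TrF.mul {N : ℤ} {F K : MulAut (Fr n)} (h1 : TrF N F) (h2 : TrF N K) : TrF N (F * K) := by
  intro y
  have h3 := (KD n N).mul_mem (h1 (K y)) (h2 y)
  rwa [← mul_assoc, inv_mul_cancel_right] at h3

lemma TrF.inv {N : ℤ} {F : MulAut (Fr n)} (h1 : TrF N F) : TrF N F⁻¹ := by
  intro y
  have h3 := (KD n N).inv_mem (h1 (F⁻¹ y))
  rwa [MulAut.apply_inv_self, mul_inv_rev, inv_inv] at h3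

lemma TrF.mono {N N' : ℤ} (h : N' ∣ N) {F : MulAut (Fr n)} (h1 : TrF N F) : TrF N' F :=
  fun y => KD_le h (h1 y)

lemma TrF.of_gen {N : ℤ} {F : MulAut (Fr n)}
    (ha : ∀ i, hs (F (of (Sum.inl i))) * (hs (of (Sum.inl i)))⁻¹ ∈ KD n N)
    (hb : ∀ i, hs (F (of (Sum.inr i))) * (hs (of (Sum.inr i)))⁻¹ ∈ KD n N) : TrF N F := by
  intro y
  induction y using fr_induction with
  | h1 => rw [map_one, map_one, mul_inv_cancel]; exact (KD n N).one_mem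
  | ha k => exact ha k
  | hb k => exact hb k
  | hm x y hx hy =>
    have h1 := (KD n N).mul_mem (KD_conj hy (hs (F x))) hx
    have h2 : hs (F x) * (hs (F y) * (hs y)⁻¹) * (hs (F x))⁻¹ * (hs (F x) * (hs x)⁻¹) =
        hs (F (x * y)) * (hs (x * y))⁻¹ := by
      rw [map_mul, map_mul, map_mul]; group
    rwa [h2] at h1
  | hi x hx =>
    have h1 := KD_conj' ((KD n N).inv_mem hx) (hs (F x))
    have h2 : (hs (F x))⁻¹ * (hs (F x) * (hs x)⁻¹)⁻¹ * hs (F x) =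
        hs (F x⁻¹) * (hs x⁻¹)⁻¹ := by
      rw [map_inv, map_inv, map_inv]; group
    rwa [h2] at h1

/-- Conjugation. -/
lemma TrF.conj {M : ℕ} {F K : MulAut (Fr n)} (h1 : TrF (2 * M : ℤ) F) (hK : K ∈ Sym n) :
    TrF (M : ℤ) (K * F * K⁻¹) := by
  obtain ⟨μ, h2, h3⟩ := Sym.exists_mu hK
  intro y
  have h4 := mu_KD h3 (h1 (K⁻¹ y))
  have h5 : μ (hs (F (K⁻¹ y)) * (hs (K⁻¹ y))⁻¹) = hs ((K * F * K⁻¹) y) * (hs y)⁻¹ := by
    rw [map_mul, map_inv, ← h2, ← h2, MulAut.apply_inv_self]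
    rfl
  rwa [h5] at h4

lemma FA_pow_self (i : Fin n) (k : ℕ) :
    (FA i ^ k) (of (Sum.inr i)) = of (Sum.inr i) * of (Sum.inl i) ^ k := by
  induction k with
  | zero => rw [pow_zero, pow_zero, mul_one]; rfl
  | succ k ih =>
    rw [pow_succ', MulAut.mul_apply, ih, map_mul, map_pow, FA_self, FA_ne _ (by simp), pow_succ',
      mul_assoc]

lemma FA_pow_ne (i : Fin n) (k : ℕ) {x : Fin n ⊕ Fin n} (hx : x ≠ Sum.inr i) :
    (FA i ^ k) (of x) = of x := by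
  induction k with
  | zero => rw [pow_zero]; rfl
  | succ k ih => rw [pow_succ', MulAut.mul_apply, ih, FA_ne _ hx]

lemma TrF_FA (i : Fin n) (k : ℕ) : TrF (k : ℤ) (FA i ^ k) := by
  refine TrF.of_gen (fun j => ?_) (fun j => ?_)
  · rw [FA_pow_ne _ _ (by simp), mul_inv_cancel]
    exact (KD n _).one_mem
  · by_cases hj : j = i
    · subst hj
      rw [FA_pow_self, map_mul, map_pow]
      refine KD_conj ?_ _
      obtain ⟨h1, h2⟩ := pow_vs (hs (of (Sum.inl j) : Fr n)) k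
      have h0 : co (e j : V n) (e j) = 0 := by
        rw [co]
        refine Finset.sum_eq_zero fun i _ => ?_
        by_cases hi : i = j
        · subst hi; rw [e_self]; simp
        · rw [e_ne hi]; simp
      refine ⟨?_, ?_⟩
      · rw [h1]
        exact Dv.of_dvd (dvd_refl _) _
      · rw [hs_a] at h2 ⊢
        simp only [h0, mul_zero, sub_zero] at h2
        have : ((⟨e j, 0⟩ : Hs n) ^ k).s = 0 := by omega
        rw [this]
        exact dvd_zero _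
    · rw [FA_pow_ne _ _ (by simp [hj]), mul_inv_cancel]
      exact (KD n _).one_mem

end kd

section

variable {n : ℕ} {G : Type*} [Group G] {a b : Fin (n + 1) → G}

/-- The last step of the argument. -/
theorem fin_step (h : IsSurf a b) (hn : 2 ≤ n) (Z : Subgroup (MulAut G))
    (hZ : ∀ ψ ∈ MMs h, ∀ x ∈ Z, ψ * x * ψ⁻¹ ∈ Z) (hI : ∀ x : G, MulAut.conj x ∈ Z)
    (M : ℕ) (hM : M ≠ 0) (k : Fin (n + 1)) (hT : TA h k ^ (2 * M) ∈ Z)
    (hTL : ∀ φ ∈ MMs h, ∀ u : V (n + 1), TL a b φ ((M : ℤ) • u) → φ ∈ Z) :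
    ∃ Γ : Subgroup G, Γ.Characteristic ∧ Γ.FiniteIndex ∧ ∀ φ ∈ MMs h, InnMod Γ φ → φ ∈ Z := by
  have h2M : 2 * M ≠ 0 := by omega
  have hWf : ((KD (n + 1) ((2 * M : ℕ) : ℤ)).comap hs).FiniteIndex :=
    comap_fi _ (KD_finiteIndex (2 * M) h2M)
  obtain ⟨U, hUc, hUf, hUW⟩ := exists_char_le _ hWf
  obtain ⟨Γ₀, hΓn, hΓf, hdl, hΓ⟩ :=
    Pool.MP_59b15d_al.H73S.comparisonF (n := n + 1) (by omega) U hUc hUf
  have hGfg : Group.FG G := surf_fg h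
  have hmf : (Γ₀.map (qH a b)).FiniteIndex := map_fi _ (qH_surj h) hΓf
  obtain ⟨Γ, hc, hf, hle⟩ := exists_char_le (Γ₀.map (qH a b)) hmf
  refine ⟨Γ, hc, hf, ?_⟩
  have hΓ'n : Γ.Normal := inferInstance
  rintro φ hφ ⟨g₀, hg₀⟩
  obtain ⟨φ₁, hφ₁e⟩ : ∃ φ₁ : MulAut G, φ₁ = MulAut.conj g₀⁻¹ * φ := ⟨_, rfl⟩
  have hφ₁ : φ₁ ∈ MMs h := by
    rw [hφ₁e]
    exact Subgroup.mul_mem _ (Subgroup.subset_closure (Or.inl ⟨_, rfl⟩)) hφ
  have hφ₁2 : ∀ z, φ₁ z * z⁻¹ ∈ Γ := by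
    intro z
    have h1 := hΓ'n.conj_mem _ (hg₀ z) g₀⁻¹
    have h2 : g₀⁻¹ * (φ z * (g₀ * z * g₀⁻¹)⁻¹) * g₀⁻¹⁻¹ = φ₁ z * z⁻¹ := by
      rw [hφ₁e]
      change _ = g₀⁻¹ * φ z * g₀⁻¹⁻¹ * z⁻¹
      group
    rwa [h2] at h1
  obtain ⟨F, hF⟩ := exists_Lf h hφ₁
  have hclose : ∀ z, F z * z⁻¹ ∈ Γ₀ := by
    intro z
    have h1 : qH a b (F z * z⁻¹) ∈ Γ₀.map (qH a b) := by
      rw [map_mul, map_inv, ← hF.ind]
      exact hle (hφ₁2 _)
    obtain ⟨w, hw, hw2⟩ := h1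
    have h2 : qH a b (w⁻¹ * (F z * z⁻¹)) = 1 := by
      rw [map_mul, map_inv, hw2, inv_mul_cancel]
    have h3 := qH_ker h h2
    have h4 : Subgroup.normalClosure {(dl (n + 1) : Fr (n + 1))} ≤ Γ₀ :=
      Subgroup.normalClosure_le_normal (by
        rintro _ rfl
        exact hdl)
    have h5 := Γ₀.mul_mem hw (h4 h3)
    rwa [mul_inv_cancel_left] at h5
  obtain ⟨j, hj⟩ := hΓ F (FT_dl F hF.mem) hclose
  have hTrF : TrF ((2 * M : ℕ) : ℤ) F := by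
    intro z
    have h1 : hs (F z * (dl (n + 1) ^ j * z * (dl (n + 1) ^ j)⁻¹)⁻¹) ∈
        KD (n + 1) ((2 * M : ℕ) : ℤ) := hUW (hj z)
    have h2 : hs (F z * (dl (n + 1) ^ j * z * (dl (n + 1) ^ j)⁻¹)⁻¹) = hs (F z) * (hs z)⁻¹ := by
      have h3 : hs (dl (n + 1) ^ j * z * (dl (n + 1) ^ j)⁻¹ : Fr (n + 1)) = hs z := by
        have h4 := hs_dl (g := n + 1) (m := n + 1) le_rfl
        rw [map_mul, map_mul, map_inv, map_zpow, h4, ← zpow_mul,
          ((Hs.z_comm (hs z)).zpow_left _).eq, mul_inv_cancel_right]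
      rw [map_mul, map_inv, h3]
    rwa [h2] at h1
  have hcls : ∀ x : G, Dv ((2 * M : ℕ) : ℤ) (cls h (φ₁ x) - cls h x) := by
    intro x
    obtain ⟨z, rfl⟩ := qH_surj h x
    have h1 := (hTrF z).1
    rw [Hs.mul_v, Hs.inv_v, ← sub_eq_add_neg] at h1
    rw [hF.ind, cls_qH, cls_qH]
    exact h1
  -- the group generated by the conjugates of the power of the twist
  let R : Subgroup (MulAut G) :=
    Subgroup.closure {x | ∃ ψ ∈ MMs h, x = ψ * TA h k ^ (2 * M) * ψ⁻¹}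
  have hRn : ∀ f ∈ MCG a b, ∀ x ∈ R, f * x * f⁻¹ ∈ R := by
    intro f hf
    rw [MCG_eq h] at hf
    have h1 : R ≤ R.comap (MulAut.conj f).toMonoidHom := by
      change Subgroup.closure _ ≤ _
      rw [Subgroup.closure_le]
      rintro _ ⟨ψ, hψ, rfl⟩
      change f * (ψ * TA h k ^ (2 * M) * ψ⁻¹) * f⁻¹ ∈ R
      exact Subgroup.subset_closure ⟨f * ψ, (MMs h).mul_mem hf hψ, by group⟩
    exact fun x hx => h1 hx
  have hRZ : R ≤ Z := by
    change Subgroup.closure _ ≤ _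
    rw [Subgroup.closure_le]
    rintro _ ⟨ψ, hψ, rfl⟩
    exact hZ ψ hψ _ hT
  have hRT : ∀ r ∈ R, ∃ K, Lf a b r K ∧ TrF (M : ℤ) K := by
    intro r hr
    refine Subgroup.closure_induction
      (p := fun r _ => ∃ K, Lf a b r K ∧ TrF (M : ℤ) K) ?_ ?_ ?_ ?_ hr
    · rintro _ ⟨ψ, hψ, rfl⟩
      obtain ⟨K, hK⟩ := exists_Lf h hψ
      refine ⟨K * FA k ^ (2 * M) * K⁻¹, (hK.mul ((Lf_TA h k).pow _)).mul hK.inv, ?_⟩
      refine TrF.conj ?_ (FT_sym hK.mem)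
      have := TrF_FA k (2 * M)
      push_cast at this
      exact this
    · exact ⟨1, Lf.one a b, TrF.one _⟩
    · rintro x y _ _ ⟨K, h1, h2⟩ ⟨L, h3, h4⟩
      exact ⟨K * L, h1.mul h3, h2.mul h4⟩
    · rintro x _ ⟨K, h1, h2⟩
      exact ⟨K⁻¹, h1.inv, h2.inv⟩
  obtain ⟨r, hrR, hrM, hr1⟩ := power_H1 h (by omega) hRn (m := ((2 * M : ℕ) : ℤ))
    (by exact_mod_cast h2M) (k := k)
    (by
      rw [zpow_natCast]
      exact Subgroup.subset_closure ⟨1, (MMs h).one_mem, by group⟩)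
    (f := φ₁) (by rw [MCG_eq h]; exact hφ₁) hcls
  obtain ⟨K, hK, hKT⟩ := hRT r hrR
  have hmem : φ₁ * r⁻¹ ∈ MMs h := by
    rw [MCG_eq h] at hrM
    exact (MMs h).mul_mem hφ₁ ((MMs h).inv_mem hrM)
  obtain ⟨u₀, hu₀⟩ := exists_TL h hmem hr1
  have hL : Lf a b (φ₁ * r⁻¹) (F * K⁻¹) := hF.mul hK.inv
  have hdvd : ∀ z, (M : ℤ) ∣ om u₀ (clr z) := by
    intro z
    have h1 := hu₀.all h (by omega) hL z
    have h2 := ((hTrF.mono (N' := (M : ℤ)) (by push_cast; exact dvd_mul_left _ _)).mul hKT.inv) z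
    rw [h1] at h2
    have h3 : hs z * Hs.z ^ om u₀ (clr z) * (hs z)⁻¹ = Hs.z ^ om u₀ (clr z) := by
      rw [← ((Hs.z_comm (hs z)).zpow_left _).eq, mul_inv_cancel_right]
    rw [h3] at h2
    exact z_mem_KD.1 h2
  have hDv : ∃ u : V (n + 1), u₀ = (M : ℤ) • u := by
    have h1 : ∀ i, (M : ℤ) ∣ (u₀ i).1 := by
      intro i
      have := hdvd (of (Sum.inr i))
      rwa [clr_b, om_f] at this
    have h2 : ∀ i, (M : ℤ) ∣ (u₀ i).2 := by
      intro i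
      have := hdvd (of (Sum.inl i))
      rw [clr_a, om_e] at this
      exact (dvd_neg).1 this
    choose p hp using h1
    choose q hq using h2
    refine ⟨fun i => (p i, q i), ?_⟩
    funext i
    exact Prod.ext (hp i) (hq i)
  obtain ⟨u, rfl⟩ := hDv
  have h1 : φ₁ * r⁻¹ ∈ Z := hTL _ hmem u hu₀
  have h2 : φ₁ ∈ Z := by
    have := Z.mul_mem h1 (hRZ hrR)
    rwa [inv_mul_cancel_right] at this
  have h3 : φ = MulAut.conj g₀ * φ₁ := by
    rw [hφ₁e, ← mul_assoc, ← map_mul, mul_inv_cancel, map_one, one_mul]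
  rw [h3]
  exact Z.mul_mem (hI _) h2

end

end Pool.Agent.H.MP_59b15d_al.H93C
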