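/-
The centre theorem: a subgroup of finite index, normalised by the mapping class group, modulo which
the pushes factor through the Heisenberg group, is contained in its centraliser-congruence closure.
-/
import Pool.Agent.H.MP_59b15d_al.h93c.End
import Pool.Agent.H.MP_59b15d_al.h93c.BPx
import Pool.Agent.H.MP_59b15d_al.h93c.Fin
import Pool.Agent.H.MP_59b15d_al.pk.ThmG

set_option autoImplicit false

namespace Pool.Agent.H.MP_59b15d_al.H93C

open Pool.Agent.H.MP_59b15d_al.SP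
open Pool.MP_59b15d_al.H24T Pool.MP_59b15d_al.H76R Pool.MP_59b15d_al.H73E
open Pool.MP_59b15d_al.H76 (InnMod)
open Pool.MP_59b15d_al.H60G Pool.MP_59b15d_al.H95G
open FreeGroup (of)

variable {n : ℕ} {G : Type*} [Group G] {a b : Fin (n + 1) → G}

/-- **Centre theorem.**  Let `N` be of finite index in the mapping class group of a closed surface
of genus `n + 1 ≥ 5`, normalised by it and containing the inner automorphisms.  If the pushes
satisfy the relations of the Heisenberg group modulo `N`, then the elements which commute modulo `N`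
with the whole mapping class group contain a congruence subgroup. -/
theorem end_centre (h : IsSurf a b) (hn : 4 ≤ n) (N : Subgroup (MulAut G))
    (hN : ∀ φ ∈ MMs h, ∀ x ∈ N, φ * x * φ⁻¹ ∈ N) (hI : ∀ x : G, MulAut.conj x ∈ N)
    (hf : N.relIndex (MMs h) ≠ 0) (hR : Rels h N) :
    ∃ Γ : Subgroup G, Γ.Characteristic ∧ Γ.FiniteIndex ∧
      ∀ φ ∈ MMs h, InnMod Γ φ → ∀ ψ ∈ MMs h, φ * ψ * φ⁻¹ * ψ⁻¹ ∈ N := by
  obtain ⟨M, hM0, hM⟩ := exists_exp h N hN hf
  have hG : ∀ K : Subgroup (MulAut G), (∀ ψ ∈ MMs h, ∀ x ∈ K, ψ * x * ψ⁻¹ ∈ K) →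
      (∀ r ∈ MR h 0 n, H1 h r = 1 → r ∈ K) → ∀ φ ∈ MMs h, H1 h φ = 1 → φ ∈ K := by
    intro K hK hr φ hφ h1
    have h2 := PK.torelli h hn hφ h1
    refine (Subgroup.closure_le _).2 ?_ h2
    rintro x ⟨ψ, hψ, r, hr1, hr2, rfl⟩
    exact hK ψ hψ r (hr r hr1 hr2)
  have hT : TA h (Fin.last n) ^ (2 * M) ∈ Zc h N hN := by
    have hA : TA h (Fin.last n) ∈ MMs h := Subgroup.subset_closure (Or.inr (Or.inl ⟨_, rfl⟩))
    rw [mul_comm, pow_mul]
    exact (Zc h N hN).pow_mem (mem_Zc h N hN ((MMs h).pow_mem hA M) (hM _ hA)) 2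
  obtain ⟨Γ, h1, h2, h3⟩ := fin_step h (by omega) (Zc h N hN) (Zc_conj h N hN)
    (fun x => mem_Zc h N hN (Subgroup.subset_closure (Or.inl ⟨x, rfl⟩)) (hI x)) M hM0
    (Fin.last n) hT fun φ hφ u hu =>
      central_of_TL h hn N hN hI hR (fun i j hij s hs' => exists_bp h hij s hs') hG M hM hφ hu
  exact ⟨Γ, h1, h2, fun φ hφ hin => (h3 φ hφ hin).2⟩

/-- **Theorem A.**  A subgroup of index smaller than `2 ^ binom(g, 3)`, `g = n + 1 ≥ 5`, normalised
by the mapping class group and containing the inner automorphisms: the elements which commute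
modulo it with the whole mapping class group contain a congruence subgroup. -/
theorem theoremA (h : IsSurf a b) (hn : 4 ≤ n) (N : Subgroup (MulAut G))
    (hN : ∀ φ ∈ MMs h, ∀ x ∈ N, φ * x * φ⁻¹ ∈ N) (hI : ∀ x : G, MulAut.conj x ∈ N)
    (hf : N.relIndex (MMs h) ≠ 0) (hlt : N.relIndex (MMs h) < 2 ^ (n + 1).choose 3) :
    ∃ Γ : Subgroup G, Γ.Characteristic ∧ Γ.FiniteIndex ∧
      ∀ φ ∈ MMs h, InnMod Γ φ → ∀ ψ ∈ MMs h, φ * ψ * φ⁻¹ * ψ⁻¹ ∈ N := by
  obtain ⟨h1, h2, h3⟩ := growth' h N hN (by omega) hf hlt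
  exact end_centre h hn N hN hI hf ⟨h1, h2, h3⟩

end Pool.Agent.H.MP_59b15d_al.H93C
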